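import Pool.Agent.W5h29.LU.Main
set_option autoImplicit false

/-!
The exceptional members of the family: finitely many up to integral affine changes of the coordinates.
-/

namespace Pool.Agent.W5h29.LU

open Pool.Agent.W5h29.LA (Dat unramified)

open Pool.Agent.W5h29.LA.Dat

/-- Integral affine changes of the coordinates: `λ = λ'` and `L_p(x, y) = L'_p(a x + b y + e, c x + d y + f)`
for all `p`, with integers `a, ..., f` such that `a d - b c = ± 1`. -/
def Equi {N : ℕ} (D D' : Dat ℚ N) : Prop :=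
  ∃ a b c d e f : ℤ, (a * d - b * c = 1 ∨ a * d - b * c = -1) ∧ D'.lam = D.lam ∧
    ∀ p, D.al p = D'.al p * a + D'.be p * c ∧ D.be p = D'.al p * b + D'.be p * d ∧
      D.ga p = D'.al p * e + D'.be p * f + D'.ga p

/-- integers of absolute value at most `10 ^ 10` -/
def bd : Set ℚ := {x | ∃ n : ℤ, x = n ∧ |n| ≤ 10 ^ 10}

theorem bd_finite : bd.Finite := by
  have h : bd ⊆ (fun n : ℤ => (n : ℚ)) '' Set.Icc (-10 ^ 10) (10 ^ 10) := by
    rintro x ⟨n, rfl, hn⟩
    exact ⟨n, Set.mem_Icc.2 (abs_le.1 hn), rfl⟩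
  exact ((Set.finite_Icc _ _).image _).subset h

/-- the data with entries in a finite set -/
def box (N : ℕ) : Set (Dat ℚ N) :=
  {D | (∀ p, D.al p ∈ bd) ∧ (∀ p, D.be p ∈ bd) ∧ (∀ p, D.ga p ∈ bd) ∧ D.lam ∈ bd}

theorem box_finite (N : ℕ) : (box N).Finite := by
  set φ : Dat ℚ N → (Fin N → ℚ) × (Fin N → ℚ) × (Fin N → ℚ) × ℚ :=
    fun D => (D.al, D.be, D.ga, D.lam) with hφ
  have hinj : Function.Injective φ := by
    rintro ⟨a, b, c, l⟩ ⟨a', b', c', l'⟩ h
    simp only [hφ, Prod.mk.injEq] at h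
    obtain ⟨rfl, rfl, rfl, rfl⟩ := h
    rfl
  have hpi : (Set.pi Set.univ fun _ : Fin N => bd).Finite := Set.Finite.pi fun _ => bd_finite
  have hfin := (hpi.prod (hpi.prod (hpi.prod bd_finite))).preimage hinj.injOn
  refine hfin.subset ?_
  rintro D ⟨h1, h2, h3, h4⟩
  refine Set.mem_prod.2 ⟨fun p _ => h1 p, Set.mem_prod.2 ⟨fun p _ => h2 p,
    Set.mem_prod.2 ⟨fun p _ => h3 p, h4⟩⟩⟩

/-- the exceptional data -/
def exc : Set (Σ N, Dat ℚ N) := ⋃ N ∈ {N : ℕ | N < 20}, Sigma.mk N '' box N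

theorem exc_finite : exc.Finite := by
  unfold exc
  exact (Set.finite_lt_nat 20).biUnion fun N _ => (box_finite N).image _

variable {N : ℕ} {D : Dat ℚ N}

/-- the normal form -/
def nf (D : Dat ℚ N) (p q : Fin N) : Dat ℚ N where
  al a := D.det2 p q * D.det2 a q
  be a := D.det2 p q * D.det2 p a
  ga a := D.det2 p q * D.det3 p q a
  lam := D.lam

theorem sq_det2 (hD : D.Directions) {p q : Fin N} (hd : D.det2 p q ≠ 0) :
    D.det2 p q * D.det2 p q = 1 := by
  rcases det2_cases hD p q with h | h | h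
  · exact absurd h hd
  · rw [h]; norm_num
  · rw [h]; norm_num

theorem equi_nf (hI : D.Integral) (hD : D.Directions) {p q : Fin N} (hd : D.det2 p q ≠ 0) :
    Equi D (nf D p q) := by
  obtain ⟨a, ha⟩ := int_of_isIntegral (hI.1 p).1
  obtain ⟨b, hb⟩ := int_of_isIntegral (hI.1 p).2.1
  obtain ⟨e, he⟩ := int_of_isIntegral (hI.1 p).2.2
  obtain ⟨c, hc⟩ := int_of_isIntegral (hI.1 q).1
  obtain ⟨d, hdd⟩ := int_of_isIntegral (hI.1 q).2.1
  obtain ⟨f, hf⟩ := int_of_isIntegral (hI.1 q).2.2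
  have hs := sq_det2 hD hd
  refine ⟨a, b, c, d, e, f, ?_, rfl, fun x => ⟨?_, ?_, ?_⟩⟩
  · have h1 : ((a * d - b * c : ℤ) : ℚ) = D.det2 p q := by
      unfold Dat.det2
      rw [ha, hb, hc, hdd]
      push_cast
      ring
    rcases det2_cases hD p q with h | h | h
    · exact absurd h hd
    · left
      rw [h] at h1
      exact_mod_cast h1
    · right
      rw [h] at h1
      exact_mod_cast h1
  · rw [← ha, ← hc]
    simp only [nf]
    have h1 := rel_al D p q x
    have e1 : D.det2 q x = -D.det2 x q := D.det2_symm q x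
    have e2 : D.det2 x p = -D.det2 p x := D.det2_symm x p
    rw [e1, e2] at h1
    linear_combination (-(D.al x)) * hs + D.det2 p q * h1
  · rw [← hb, ← hdd]
    simp only [nf]
    have h1 := rel_be D p q x
    have e1 : D.det2 q x = -D.det2 x q := D.det2_symm q x
    have e2 : D.det2 x p = -D.det2 p x := D.det2_symm x p
    rw [e1, e2] at h1
    linear_combination (-(D.be x)) * hs + D.det2 p q * h1
  · rw [← he, ← hf]
    simp only [nf]
    have h1 := rel_ga D p q x
    have e1 : D.det2 q x = -D.det2 x q := D.det2_symm q x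
    have e2 : D.det2 x p = -D.det2 p x := D.det2_symm x p
    rw [e1, e2] at h1
    linear_combination (-(D.ga x)) * hs + D.det2 p q * h1

theorem nf_box (hI : D.Integral) (hD : D.Directions) (hG : D.Generic) {p q : Fin N}
    (hd : D.det2 p q ≠ 0) (hs : size D p q < 10 ^ 10) : nf D p q ∈ box N := by
  have hdet2 : ∀ x y, ∃ n : ℤ, D.det2 x y = n ∧ |n| ≤ 1 := by
    intro x y
    rcases det2_cases hD x y with h | h | h
    · exact ⟨0, by rw [h]; simp, by norm_num⟩
    · exact ⟨1, by rw [h]; simp, by norm_num⟩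
    · exact ⟨-1, by rw [h]; simp, by norm_num⟩
  have hmul : ∀ x y, D.det2 p q * D.det2 x y ∈ bd := by
    intro x y
    obtain ⟨m, hm, hm1⟩ := hdet2 p q
    obtain ⟨n, hn, hn1⟩ := hdet2 x y
    refine ⟨m * n, by rw [hm, hn]; push_cast; ring, ?_⟩
    rw [abs_mul]
    have h1 : |m| * |n| ≤ 1 * 1 := mul_le_mul hm1 hn1 (abs_nonneg _) zero_le_one
    linarith
  have hge : ∀ a ∈ oth p q, 1 ≤ |D.det3 p q a| := fun a ha =>
    one_le_abs_of_int (det3_int hI p q a) (hG p q a hd (mem_oth.1 ha).1 (mem_oth.1 ha).2)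
  have hprod1 : ∀ s : Finset (Fin N), s ⊆ oth p q → 1 ≤ ∏ a ∈ s, |D.det3 p q a| := by
    intro s hs
    have h1 : ∏ a ∈ s, (1 : ℚ) ≤ ∏ a ∈ s, |D.det3 p q a| :=
      Finset.prod_le_prod (fun _ _ => zero_le_one) fun a ha => hge a (hs ha)
    rwa [Finset.prod_const_one] at h1
  have hlam := lam_ge hI
  have hP := hprod1 _ (Finset.Subset.refl _)
  have hs' : |D.lam| * ∏ a ∈ oth p q, |D.det3 p q a| < 10 ^ 10 := hs
  have hlb : |D.lam| < 10 ^ 10 := by
    refine lt_of_le_of_lt ?_ hs'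
    exact le_mul_of_one_le_right (abs_nonneg _) hP
  have hPb : ∏ a ∈ oth p q, |D.det3 p q a| < 10 ^ 10 := by
    refine lt_of_le_of_lt ?_ hs'
    exact le_mul_of_one_le_left (by linarith) hlam
  have hdet3 : ∀ a, |D.det3 p q a| ≤ 10 ^ 10 := by
    intro a
    by_cases ha : a ∈ oth p q
    · have h1 : |D.det3 p q a| ≤ ∏ a ∈ oth p q, |D.det3 p q a| := by
        rw [← Finset.mul_prod_erase _ _ ha]
        exact le_mul_of_one_le_right (abs_nonneg _) (hprod1 _ (Finset.erase_subset _ _))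
      linarith
    · have h0 : D.det3 p q a = 0 := by
        rw [mem_oth, not_and_or, not_not, not_not] at ha
        rcases ha with rfl | rfl
        · unfold Dat.det3 Dat.det2
          ring
        · unfold Dat.det3 Dat.det2
          ring
      rw [h0, abs_zero]
      norm_num
  refine ⟨fun a => hmul a q, fun a => hmul p a, fun a => ?_, ?_⟩
  · obtain ⟨m, hm, hm1⟩ := hdet2 p q
    obtain ⟨n, hn⟩ := det3_int hI p q a
    refine ⟨m * n, by simp only [nf]; rw [hm, hn]; push_cast; ring, ?_⟩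
    have h1 := hdet3 a
    rw [hn, ← Int.cast_abs] at h1
    have h2 : |n| ≤ 10 ^ 10 := by exact_mod_cast h1
    rw [abs_mul]
    have h3 : |m| * |n| ≤ 1 * 10 ^ 10 := mul_le_mul hm1 h2 (abs_nonneg _) zero_le_one
    linarith
  · obtain ⟨n, hn⟩ := int_of_isIntegral hI.2.1
    refine ⟨n, hn, ?_⟩
    have h1 := hlb.le
    rw [hn, ← Int.cast_abs] at h1
    exact_mod_cast h1

end Pool.Agent.W5h29.LU
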