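import Pool.Agent.W5h29.LA.Ind
set_option autoImplicit false

/-!
Combinatorics of integral unimodular arrangements of lines.
-/

namespace Pool.Agent.W5h29.LU

open Pool.Agent.W5h29.LA (Dat)

open Pool.Agent.W5h29.LA.Dat

section prod

variable {ι : Type*}

/-- a lower bound for a product of positive integers with bounded multiplicities -/
theorem prod_ge {m : ℕ} (hm : 0 < m) (f : ι → ℕ) : ∀ (n : ℕ) (A : Finset ι), A.card = n →
    (∀ a ∈ A, 1 ≤ f a) → (∀ j, (A.filter fun a => f a = j).card ≤ m) →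
    ∏ j ∈ Finset.range n, (j / m + 1) ≤ ∏ a ∈ A, f a := by
  classical
  intro n
  induction n with
  | zero =>
    intro A hA _ _
    rw [Finset.card_eq_zero.1 hA]
    simp
  | succ n ih =>
    intro A hA h1 h2
    have hne : A.Nonempty := Finset.card_pos.1 (by omega)
    obtain ⟨a, ha, hmax⟩ := Finset.exists_max_image A f hne
    have h3 : A.card ≤ m * (A.image f).card :=
      Finset.card_le_mul_card_image A m fun b _ => h2 b
    have h4 : (A.image f).card ≤ f a := by
      have h5 : A.image f ⊆ Finset.Icc 1 (f a) := by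
        intro x hx
        obtain ⟨b, hb, rfl⟩ := Finset.mem_image.1 hx
        exact Finset.mem_Icc.2 ⟨h1 b hb, hmax b hb⟩
      have h6 := Finset.card_le_card h5
      rwa [Nat.card_Icc, Nat.add_sub_cancel] at h6
    have h5 : n < f a * m := by
      have h6 := Nat.mul_le_mul_left m h4
      rw [hA] at h3
      rw [mul_comm]
      omega
    have h6 : n / m + 1 ≤ f a := (Nat.div_lt_iff_lt_mul hm).2 h5
    have h7 := ih (A.erase a) (by rw [Finset.card_erase_of_mem ha, hA, Nat.add_sub_cancel])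
      (fun b hb => h1 b (Finset.mem_of_mem_erase hb)) (fun j =>
        (Finset.card_le_card (Finset.filter_subset_filter _ (Finset.erase_subset a A))).trans (h2 j))
    rw [Finset.prod_range_succ, ← Finset.prod_erase_mul A f ha]
    exact Nat.mul_le_mul h7 h6

/-- the numbers `n / 6 + 1` -/
theorem prod_bound : ∀ N : ℕ, 20 ≤ N → 100 * N ^ 2 ≤ ∏ j ∈ Finset.range (N - 2), (j / 6 + 1) := by
  intro N hN
  induction N, hN using Nat.le_induction with
  | base =>
    simp [Finset.prod_range_succ]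
  | succ N hN ih =>
    have e : N + 1 - 2 = (N - 2) + 1 := by omega
    rw [e, Finset.prod_range_succ]
    have h1 : 4 ≤ (N - 2) / 6 + 1 := by omega
    have h2 := Nat.mul_le_mul ih h1
    refine le_trans ?_ h2
    nlinarith

theorem prod_bound' : ∀ N : ℕ, 2 ≤ N → N ^ 2 ≤ 64 * ∏ j ∈ Finset.range (N - 2), (j / 6 + 1) := by
  intro N hN
  by_cases h : N ≤ 20
  · interval_cases N <;> simp [Finset.prod_range_succ]
  · have := prod_bound N (by omega)
    omega

end prod

variable {N : ℕ} {D : Dat ℚ N}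

theorem det2_cases (hD : D.Directions) (p q : Fin N) :
    D.det2 p q = 0 ∨ D.det2 p q = 1 ∨ D.det2 p q = -1 := by
  rcases hD.1 p q with h | ⟨m, hm, h⟩
  · exact Or.inl h
  · right
    have h1 : |D.det2 p q| ^ m = 1 := by
      rw [← abs_pow, h, abs_one]
    have h2 := (pow_eq_one_iff_of_nonneg (abs_nonneg _) hm).1 h1
    exact eq_or_eq_neg_of_abs_eq h2

theorem int_of_isIntegral {x : ℚ} (h : IsIntegral ℤ x) : ∃ n : ℤ, x = n := by
  obtain ⟨n, hn⟩ := IsIntegrallyClosed.isIntegral_iff.1 h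
  exact ⟨n, by rw [← hn]; rfl⟩

theorem det3_int (hI : D.Integral) (p q a : Fin N) : ∃ n : ℤ, D.det3 p q a = n := by
  apply int_of_isIntegral
  unfold Dat.det3 Dat.det2
  have h := hI.1
  exact ((((h p).2.2).mul ((((h q).1).mul ((h a).2.1)).sub (((h a).1).mul ((h q).2.1)))).add
    (((h q).2.2).mul ((((h a).1).mul ((h p).2.1)).sub (((h p).1).mul ((h a).2.1))))).add
    (((h a).2.2).mul ((((h p).1).mul ((h q).2.1)).sub (((h q).1).mul ((h p).2.1))))

theorem one_le_abs_of_int {x : ℚ} (h : ∃ n : ℤ, x = n) (h0 : x ≠ 0) : 1 ≤ |x| := by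
  obtain ⟨n, rfl⟩ := h
  have h1 : n ≠ 0 := by
    rintro rfl
    exact h0 (by simp)
  have h2 := Int.one_le_abs h1
  rw [← Int.cast_abs]
  exact_mod_cast h2

theorem two_le_abs_of_int {x : ℚ} (h : ∃ n : ℤ, x = n) (h0 : x ≠ 0) (h1 : |x| ≠ 1) : 2 ≤ |x| := by
  obtain ⟨n, rfl⟩ := h
  have h1' : n ≠ 0 := by
    rintro rfl
    exact h0 (by simp)
  have h2 := Int.one_le_abs h1'
  have h3 : |n| ≠ 1 := by
    intro h
    apply h1
    rw [← Int.cast_abs, h]
    simp
  rw [← Int.cast_abs]
  have h4 : (2 : ℤ) ≤ |n| := by omega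
  exact_mod_cast h4

/-- the linear relation for the coefficients -/
theorem rel_al (D : Dat ℚ N) (p q a : Fin N) :
    D.det2 p q * D.al a = -(D.det2 q a * D.al p + D.det2 a p * D.al q) := by
  unfold Dat.det2
  ring

theorem rel_be (D : Dat ℚ N) (p q a : Fin N) :
    D.det2 p q * D.be a = -(D.det2 q a * D.be p + D.det2 a p * D.be q) := by
  unfold Dat.det2
  ring

theorem rel_ga (D : Dat ℚ N) (p q a : Fin N) :
    D.det2 p q * D.ga a = D.det3 p q a - (D.det2 q a * D.ga p + D.det2 a p * D.ga q) := by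
  unfold Dat.det3
  ring

theorem pluecker (D : Dat ℚ N) (p q a b : Fin N) :
    D.det2 p q * D.det2 a b = D.det2 q a * D.det2 b p - D.det2 q b * D.det2 a p := by
  unfold Dat.det2
  ring

/-- a line is determined by its coordinates up to a factor -/
theorem line_inj (hG : D.Generic) (hD : ∀ p, ∃ q, D.det2 p q ≠ 0) {p q a b : Fin N}
    (hd : D.det2 p q ≠ 0) {ε : ℚ} (h1 : D.det2 q a = ε * D.det2 q b)
    (h2 : D.det2 a p = ε * D.det2 b p) (h3 : D.det3 p q a = ε * D.det3 p q b) : a = b := by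
  by_contra hab
  have ea : D.al a = ε * D.al b := by
    apply mul_left_cancel₀ hd
    rw [rel_al, h1, h2]
    have := rel_al D p q b
    linear_combination (-ε) * this
  have eb : D.be a = ε * D.be b := by
    apply mul_left_cancel₀ hd
    rw [rel_be, h1, h2]
    have := rel_be D p q b
    linear_combination (-ε) * this
  have eg : D.ga a = ε * D.ga b := by
    apply mul_left_cancel₀ hd
    rw [rel_ga, h1, h2, h3]
    have := rel_ga D p q b
    linear_combination (-ε) * this
  obtain ⟨c, hc⟩ := hD a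
  have hbc : b ≠ c := by
    rintro rfl
    apply hc
    unfold Dat.det2
    rw [ea, eb]
    ring
  apply hG a c b hc (fun h => hab h.symm) hbc
  unfold Dat.det3 Dat.det2
  rw [ea, eb, eg]
  ring

/-- at most six lines with the same value -/
theorem card_le_six (hG : D.Generic) (hD : D.Directions) {p q : Fin N} (hd : D.det2 p q ≠ 0)
    (S : Finset (Fin N)) (w : Fin N → ℚ) (hw : ∀ a ∈ S, w a = 1 ∨ w a = -1)
    (h : ∀ a ∈ S, ∀ b ∈ S, w a * D.det2 q a = w b * D.det2 q b →
      w a * D.det2 a p = w b * D.det2 b p → w a * D.det3 p q a = w b * D.det3 p q b) :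
    S.card ≤ 6 := by
  classical
  set φ : Fin N → ℚ × ℚ := fun a => (w a * D.det2 q a, w a * D.det2 a p) with hφ
  have hsq : ∀ a ∈ S, w a * w a = 1 := by
    intro a ha
    rcases hw a ha with h0 | h0 <;> rw [h0] <;> norm_num
  have hinj : Set.InjOn φ S := by
    intro a ha b hb hab
    have ha' : a ∈ S := ha
    have hb' : b ∈ S := hb
    have e1 : w a * D.det2 q a = w b * D.det2 q b := (Prod.ext_iff.1 hab).1
    have e2 : w a * D.det2 a p = w b * D.det2 b p := (Prod.ext_iff.1 hab).2
    have e3 := h a ha' b hb' e1 e2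
    have s := hsq a ha'
    refine line_inj hG hD.2 hd (ε := w a * w b) ?_ ?_ ?_
    · linear_combination (-(D.det2 q a)) * s + w a * e1
    · linear_combination (-(D.det2 a p)) * s + w a * e2
    · linear_combination (-(D.det3 p q a)) * s + w a * e3
  have hval : ∀ a ∈ S, ((φ a).1 = 0 ∨ (φ a).1 = 1 ∨ (φ a).1 = -1) ∧
      ((φ a).2 = 0 ∨ (φ a).2 = 1 ∨ (φ a).2 = -1) := by
    intro a ha
    simp only [hφ]
    rcases hw a ha with h0 | h0 <;> rcases det2_cases hD q a with h1 | h1 | h1 <;>
      rcases det2_cases hD a p with h2 | h2 | h2 <;> rw [h0, h1, h2] <;> norm_num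
  have hnz : ∀ a ∈ S, ¬ ((φ a).1 = 0 ∧ (φ a).2 = 0) := by
    rintro a ha ⟨h1, h2⟩
    simp only [hφ] at h1 h2
    have hwa : w a ≠ 0 := by
      rcases hw a ha with h0 | h0 <;> rw [h0] <;> norm_num
    have h3 : D.det2 q a = 0 := (mul_eq_zero.1 h1).resolve_left hwa
    have h4 : D.det2 a p = 0 := (mul_eq_zero.1 h2).resolve_left hwa
    have ea : D.al a = 0 := by
      apply (mul_eq_zero.1 _).resolve_left hd
      rw [rel_al, h3, h4]
      ring
    have eb : D.be a = 0 := by
      apply (mul_eq_zero.1 _).resolve_left hd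
      rw [rel_be, h3, h4]
      ring
    obtain ⟨c, hc⟩ := hD.2 a
    apply hc
    unfold Dat.det2
    rw [ea, eb]
    ring
  have hmul : ∀ a ∈ S, (φ a).1 * (φ a).2 = D.det2 q a * D.det2 a p := by
    intro a ha
    simp only [hφ]
    have s := hsq a ha
    linear_combination (D.det2 q a * D.det2 a p) * s
  have hex : ∀ a ∈ S, ∀ b ∈ S, (φ a).1 * (φ a).2 = 1 → (φ b).1 * (φ b).2 ≠ -1 := by
    intro a ha b hb h1 h2
    rw [hmul a ha] at h1
    rw [hmul b hb] at h2
    have h3 := pluecker D p q a b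
    have sq1 : ∀ x y, D.det2 x y ^ 2 ≤ 1 := by
      intro x y
      rcases det2_cases hD x y with h0 | h0 | h0 <;> rw [h0] <;> norm_num
    have t1 : D.det2 q a = D.det2 a p ∧ D.det2 q a ^ 2 = 1 := by
      rcases det2_cases hD q a with h0 | h0 | h0 <;> rw [h0] at h1 ⊢
      · norm_num at h1
      · exact ⟨by linarith, by norm_num⟩
      · exact ⟨by linarith, by norm_num⟩
    have t2 : D.det2 b p = -D.det2 q b ∧ D.det2 q b ^ 2 = 1 := by
      rcases det2_cases hD q b with h0 | h0 | h0 <;> rw [h0] at h2 ⊢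
      · norm_num at h2
      · exact ⟨by linarith, by norm_num⟩
      · exact ⟨by linarith, by norm_num⟩
    rw [← t1.1, t2.1] at h3
    have h4 : D.det2 p q ^ 2 * D.det2 a b ^ 2 = 4 := by
      have e : D.det2 p q ^ 2 * D.det2 a b ^ 2 = (D.det2 p q * D.det2 a b) ^ 2 := by ring
      have e2 : (D.det2 q a * -D.det2 q b - D.det2 q b * D.det2 q a) ^ 2 =
          4 * (D.det2 q a ^ 2 * D.det2 q b ^ 2) := by ring
      rw [e, h3, e2, t1.2, t2.2]
      norm_num
    have h5 : D.det2 p q ^ 2 * D.det2 a b ^ 2 ≤ 1 * 1 :=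
      mul_le_mul (sq1 p q) (sq1 a b) (sq_nonneg _) zero_le_one
    linarith
  rw [← Finset.card_image_of_injOn hinj]
  by_cases hb : ∃ b ∈ S, (φ b).1 * (φ b).2 = -1
  · obtain ⟨b, hb, hb1⟩ := hb
    have hsub : S.image φ ⊆ {(1, 0), (-1, 0), (0, 1), (0, -1), (1, -1), (-1, 1)} := by
      intro x hx
      obtain ⟨a, ha, rfl⟩ := Finset.mem_image.1 hx
      have h1 := hval a ha
      have h2 := hnz a ha
      have h3 := fun h => hex a ha b hb h hb1
      set y := φ a
      obtain ⟨y1, y2⟩ := y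
      simp only at h1 h2 h3
      rcases h1 with ⟨h1 | h1 | h1, h4 | h4 | h4⟩ <;> rw [h1, h4] at h2 h3 ⊢ <;>
        first
        | exact absurd ⟨rfl, rfl⟩ h2
        | (exfalso; apply h3; norm_num; done)
        | simp
    exact (Finset.card_le_card hsub).trans Finset.card_le_six
  · have hsub : S.image φ ⊆ {(1, 0), (-1, 0), (0, 1), (0, -1), (1, 1), (-1, -1)} := by
      intro x hx
      obtain ⟨a, ha, rfl⟩ := Finset.mem_image.1 hx
      have h1 := hval a ha
      have h2 := hnz a ha
      have h3 : ¬ (φ a).1 * (φ a).2 = -1 := fun h => hb ⟨a, ha, h⟩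
      set y := φ a
      obtain ⟨y1, y2⟩ := y
      simp only at h1 h2 h3
      rcases h1 with ⟨h1 | h1 | h1, h4 | h4 | h4⟩ <;> rw [h1, h4] at h2 h3 ⊢ <;>
        first
        | exact absurd ⟨rfl, rfl⟩ h2
        | (exfalso; apply h3; norm_num; done)
        | simp
    exact (Finset.card_le_card hsub).trans Finset.card_le_six

/-- the multiplicities of the determinants -/
theorem mult_le (hG : D.Generic) (hD : D.Directions) {p q : Fin N} (hd : D.det2 p q ≠ 0) {j : ℚ}
    (S : Finset (Fin N)) (hS : ∀ a ∈ S, |D.det3 p q a| = j) : S.card ≤ 6 := by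
  refine card_le_six hG hD hd S (fun a => if 0 < D.det3 p q a then 1 else -1) ?_ ?_
  · intro a _
    by_cases h0 : 0 < D.det3 p q a
    · exact Or.inl (if_pos h0)
    · exact Or.inr (if_neg h0)
  · have key : ∀ a ∈ S, (if 0 < D.det3 p q a then (1 : ℚ) else -1) * D.det3 p q a = j := by
      intro a ha
      have h1 := hS a ha
      split_ifs with h
      · rw [abs_of_pos h] at h1
        rw [one_mul, h1]
      · push Not at h
        rw [abs_of_nonpos h] at h1
        rw [← h1]
        ring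
    intro a ha b hb _ _
    rw [key a ha, key b hb]

/-- the lower bound for the products -/
theorem prod_det3 (hI : D.Integral) (hG : D.Generic) (hD : D.Directions) {p q : Fin N}
    (hd : D.det2 p q ≠ 0) :
    ((∏ j ∈ Finset.range (N - 2), (j / 6 + 1) : ℕ) : ℚ) ≤ ∏ a ∈ oth p q, |D.det3 p q a| := by
  classical
  have hint : ∀ a, ∃ n : ℤ, D.det3 p q a = n := fun a => det3_int hI p q a
  choose f hf using hint
  have hne : ∀ a ∈ oth p q, D.det3 p q a ≠ 0 := fun a ha =>
    hG p q a hd (mem_oth.1 ha).1 (mem_oth.1 ha).2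
  have hcast : ∀ a, ((f a).natAbs : ℚ) = |D.det3 p q a| := by
    intro a
    rw [hf a, ← Int.cast_abs, Nat.cast_natAbs]
  have h1 := prod_ge (m := 6) (by norm_num) (fun a => (f a).natAbs) (N - 2) (oth p q)
    (card_oth (ne_of_det2 hd)) ?_ ?_
  · have h2 : ((∏ a ∈ oth p q, (f a).natAbs : ℕ) : ℚ) = ∏ a ∈ oth p q, |D.det3 p q a| := by
      rw [Nat.cast_prod]
      exact Finset.prod_congr rfl fun a _ => hcast a
    rw [← h2]
    exact_mod_cast h1
  · intro a ha
    have h2 := hne a ha
    rw [hf a] at h2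
    have h3 : f a ≠ 0 := by exact_mod_cast h2
    exact Int.natAbs_pos.2 h3
  · intro j
    refine mult_le hG hD hd (j := (j : ℚ)) _ ?_
    intro a ha
    rw [← hcast a, (Finset.mem_filter.1 ha).2]

end Pool.Agent.W5h29.LU
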