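import Pool.Agent.W5h29.LA.Alg
set_option autoImplicit false

/-!
The linear algebra of the regulator matrix.
-/

namespace Pool.Agent.W5h29.LU.Alg

open Pool.Agent.W5h29.LA.Alg (n2 n2_nonneg dc sum_dc sum_T err1 err2 split_sum sum3_a sum3_b sum3_c cyc)

variable {N : ℕ}

/-- the main inequality -/
theorem main (c : Fin N → Fin N → ℝ) (hc : ∀ a b, c b a = -c a b)
    (T : Fin N → Fin N → Fin N → ℝ) (hT : ∀ p q a, T q a p = T p q a)
    {κ ε₁ ε₂ : ℝ} (hε₁ : 0 ≤ ε₁) (hε₂ : 0 ≤ ε₂)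
    (hloc : ∀ p q, c p q ≠ 0 → ∃ (e : Fin N → ℝ) (F : Fin N → Fin N → ℝ),
      (∀ a, a ≠ p → a ≠ q → |e a + 2 * Real.pi * T p q a| ≤ ε₁) ∧
      (∀ a b, a ≠ p → a ≠ q → b ≠ p → b ≠ q → |F a b| ≤ ε₂) ∧
      κ * c p q - ∑ a ∈ (Finset.univ.erase p).erase q, e a * dc c p q a +
      ∑ a ∈ (Finset.univ.erase p).erase q, ∑ b ∈ (Finset.univ.erase p).erase q,
        (c q a + 1 / 2 * c a b) * F a b = 0) :
    κ * n2 c + 2 / 3 * Real.pi * ∑ p, ∑ q, ∑ a, T p q a * dc c p q a ^ 2 ≤
      ε₁ * (3 * N * n2 c) + ε₂ * (3 / 2 * N ^ 2 * n2 c) := by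
  have hdiag : ∀ a, c a a = 0 := by
    intro a
    have := hc a a
    linarith
  have hdp : ∀ p q, dc c p q p = 0 := by
    intro p q
    unfold dc
    rw [hdiag, hc p q]
    ring
  have hdq : ∀ p q, dc c p q q = 0 := by
    intro p q
    unfold dc
    rw [hdiag, hc p q]
    ring
  have key : ∀ p q, κ * c p q ^ 2 + 2 * Real.pi * ∑ a, T p q a * c p q * dc c p q a ≤
      ε₁ * ∑ a, |c p q| * |dc c p q a| + ε₂ * ∑ a, ∑ b, |c p q| * (|c q a| + 1 / 2 * |c a b|) := by
    intro p q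
    by_cases hcpq : c p q = 0
    · simp [hcpq]
    obtain ⟨e, F, he, hF, heq⟩ := hloc p q hcpq
    have hpq : p ≠ q := by
      rintro rfl
      exact hcpq (hdiag p)
    set A : Finset (Fin N) := (Finset.univ.erase p).erase q with hAdef
    have hmem : ∀ a ∈ A, a ≠ p ∧ a ≠ q := by
      intro a ha
      rw [hAdef, Finset.mem_erase, Finset.mem_erase] at ha
      exact ⟨ha.2.1, ha.1⟩
    have h1 : ∑ a, T p q a * c p q * dc c p q a = ∑ a ∈ A, T p q a * c p q * dc c p q a := by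
      rw [split_sum hpq, hdp, hdq, mul_zero, mul_zero, zero_add, zero_add]
    have h2 := congrArg (fun x => c p q * x) heq
    simp only [mul_zero] at h2
    have h3 : κ * c p q ^ 2 + 2 * Real.pi * ∑ a ∈ A, T p q a * c p q * dc c p q a =
        ∑ a ∈ A, c p q * ((e a + 2 * Real.pi * T p q a) * dc c p q a) -
          c p q * ∑ a ∈ A, ∑ b ∈ A, (c q a + 1 / 2 * c a b) * F a b := by
      have h4 : ∑ a ∈ A, c p q * ((e a + 2 * Real.pi * T p q a) * dc c p q a) =
          c p q * ∑ a ∈ A, e a * dc c p q a +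
            2 * Real.pi * ∑ a ∈ A, T p q a * c p q * dc c p q a := by
        rw [Finset.mul_sum, Finset.mul_sum, ← Finset.sum_add_distrib]
        refine Finset.sum_congr rfl fun a _ => ?_
        ring
      rw [h4]
      linarith
    have h5 : ∑ a ∈ A, c p q * ((e a + 2 * Real.pi * T p q a) * dc c p q a) ≤
        ε₁ * ∑ a, |c p q| * |dc c p q a| := by
      calc _ ≤ ∑ a ∈ A, ε₁ * (|c p q| * |dc c p q a|) := by
            refine Finset.sum_le_sum fun a ha => ?_
            refine (le_abs_self _).trans ?_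
            rw [abs_mul, abs_mul]
            have h6 := he a (hmem a ha).1 (hmem a ha).2
            have h7 := mul_le_mul_of_nonneg_right h6
              (mul_nonneg (abs_nonneg (c p q)) (abs_nonneg (dc c p q a)))
            linarith
        _ ≤ ∑ a, ε₁ * (|c p q| * |dc c p q a|) :=
            Finset.sum_le_sum_of_subset_of_nonneg (Finset.subset_univ _) fun a _ _ => by positivity
        _ = _ := by rw [Finset.mul_sum]
    have h6 : -(c p q * ∑ a ∈ A, ∑ b ∈ A, (c q a + 1 / 2 * c a b) * F a b) ≤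
        ε₂ * ∑ a, ∑ b, |c p q| * (|c q a| + 1 / 2 * |c a b|) := by
      calc _ ≤ ∑ a ∈ A, ∑ b ∈ A, ε₂ * (|c p q| * (|c q a| + 1 / 2 * |c a b|)) := by
            rw [Finset.mul_sum, ← Finset.sum_neg_distrib]
            refine Finset.sum_le_sum fun a ha => ?_
            rw [Finset.mul_sum, ← Finset.sum_neg_distrib]
            refine Finset.sum_le_sum fun b hb => ?_
            refine (neg_le_abs _).trans ?_
            rw [abs_mul, abs_mul]
            have h6 := hF a b (hmem a ha).1 (hmem a ha).2 (hmem b hb).1 (hmem b hb).2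
            have h7 : |c q a + 1 / 2 * c a b| ≤ |c q a| + 1 / 2 * |c a b| := by
              refine (abs_add_le _ _).trans ?_
              rw [abs_mul, abs_of_pos (by norm_num : (0 : ℝ) < 1 / 2)]
            have h8 : |c q a + 1 / 2 * c a b| * |F a b| ≤ (|c q a| + 1 / 2 * |c a b|) * ε₂ :=
              mul_le_mul h7 h6 (abs_nonneg _) (by positivity)
            have h9 := mul_le_mul_of_nonneg_left h8 (abs_nonneg (c p q))
            linarith
        _ ≤ ∑ a, ∑ b, ε₂ * (|c p q| * (|c q a| + 1 / 2 * |c a b|)) := by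
            refine (Finset.sum_le_sum fun a _ =>
              Finset.sum_le_sum_of_subset_of_nonneg (Finset.subset_univ _) fun b _ _ => ?_).trans
                (Finset.sum_le_sum_of_subset_of_nonneg (Finset.subset_univ _) fun a _ _ => ?_)
            · positivity
            · exact Finset.sum_nonneg fun b _ => by positivity
        _ = _ := by simp only [Finset.mul_sum]
    rw [h1, h3]
    linarith
  have hsum : κ * n2 c + 2 * Real.pi * ∑ p, ∑ q, ∑ a, T p q a * c p q * dc c p q a ≤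
      ε₁ * ∑ p, ∑ q, ∑ a, |c p q| * |dc c p q a| +
        ε₂ * ∑ p, ∑ q, ∑ a, ∑ b, |c p q| * (|c q a| + 1 / 2 * |c a b|) := by
    calc κ * n2 c + 2 * Real.pi * ∑ p, ∑ q, ∑ a, T p q a * c p q * dc c p q a =
        ∑ p, ∑ q, (κ * c p q ^ 2 + 2 * Real.pi * ∑ a, T p q a * c p q * dc c p q a) := by
          unfold n2
          rw [Finset.mul_sum, Finset.mul_sum, ← Finset.sum_add_distrib]
          refine Finset.sum_congr rfl fun p _ => ?_
          rw [Finset.mul_sum, Finset.mul_sum, ← Finset.sum_add_distrib]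
      _ ≤ ∑ p, ∑ q, (ε₁ * (∑ a, |c p q| * |dc c p q a|) +
          ε₂ * (∑ a, ∑ b, |c p q| * (|c q a| + 1 / 2 * |c a b|))) :=
          Finset.sum_le_sum fun p _ => Finset.sum_le_sum fun q _ => key p q
      _ = _ := by
          rw [Finset.mul_sum, Finset.mul_sum, ← Finset.sum_add_distrib]
          refine Finset.sum_congr rfl fun p _ => ?_
          rw [Finset.mul_sum, Finset.mul_sum, ← Finset.sum_add_distrib]
  have hmain := sum_T c T hT
  have b1 := mul_le_mul_of_nonneg_left (err1 c) hε₁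
  have b2 := mul_le_mul_of_nonneg_left (err2 c) hε₂
  have e : 2 / 3 * Real.pi * ∑ p, ∑ q, ∑ a, T p q a * dc c p q a ^ 2 =
      2 * Real.pi * ∑ p, ∑ q, ∑ a, T p q a * c p q * dc c p q a := by
    rw [← hmain]
    ring
  rw [e]
  linarith

/-- few triples are exceptional -/
theorem lower (c : Fin N → Fin N → ℝ) (h0 : ∀ q, ∑ p, c p q = 0)
    (T B : Fin N → Fin N → Fin N → ℝ) (hB : ∀ p q a, B q a p = B p q a)
    (hB0 : ∀ p q a, 0 ≤ B p q a) {m L : ℝ} (hL : 0 ≤ L)
    (hcount : ∀ p q, c p q ≠ 0 → ∑ a, B p q a ≤ m)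
    (hTB : ∀ p q a, L * ((1 - B p q a) * dc c p q a ^ 2) ≤ T p q a * dc c p q a ^ 2) :
    L * ((3 * N - 9 * m) * n2 c) ≤ ∑ p, ∑ q, ∑ a, T p q a * dc c p q a ^ 2 := by
  have h1 : ∑ p, ∑ q, ∑ a, B p q a * c p q ^ 2 ≤ m * n2 c := by
    unfold n2
    rw [Finset.mul_sum]
    refine Finset.sum_le_sum fun p _ => ?_
    rw [Finset.mul_sum]
    refine Finset.sum_le_sum fun q _ => ?_
    rw [← Finset.sum_mul]
    by_cases h : c p q = 0
    · simp [h]
    · exact mul_le_mul_of_nonneg_right (hcount p q h) (sq_nonneg _)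
  have h2 : ∑ p, ∑ q, ∑ a, B p q a * c q a ^ 2 = ∑ p, ∑ q, ∑ a, B p q a * c p q ^ 2 := by
    rw [cyc fun p q a => B p q a * c p q ^ 2]
    refine Finset.sum_congr rfl fun p _ => Finset.sum_congr rfl fun q _ =>
      Finset.sum_congr rfl fun a _ => ?_
    rw [hB p q a]
  have h3 : ∑ p, ∑ q, ∑ a, B p q a * c a p ^ 2 = ∑ p, ∑ q, ∑ a, B p q a * c q a ^ 2 := by
    rw [cyc fun p q a => B p q a * c q a ^ 2]
    refine Finset.sum_congr rfl fun p _ => Finset.sum_congr rfl fun q _ =>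
      Finset.sum_congr rfl fun a _ => ?_
    rw [hB p q a]
  have h4 : ∑ p, ∑ q, ∑ a, B p q a * dc c p q a ^ 2 ≤ 9 * (m * n2 c) := by
    have h5 : ∑ p, ∑ q, ∑ a, B p q a * dc c p q a ^ 2 ≤
        ∑ p, ∑ q, ∑ a, (3 * (B p q a * c p q ^ 2) + 3 * (B p q a * c q a ^ 2) +
          3 * (B p q a * c a p ^ 2)) := by
      refine Finset.sum_le_sum fun p _ => Finset.sum_le_sum fun q _ =>
        Finset.sum_le_sum fun a _ => ?_
      have h6 : dc c p q a ^ 2 ≤ 3 * (c p q ^ 2 + c q a ^ 2 + c a p ^ 2) := by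
        unfold dc
        nlinarith [sq_nonneg (c p q - c q a), sq_nonneg (c q a - c a p), sq_nonneg (c a p - c p q)]
      have h7 := mul_le_mul_of_nonneg_left h6 (hB0 p q a)
      linarith
    refine h5.trans ?_
    simp only [Finset.sum_add_distrib, ← Finset.mul_sum]
    rw [h3, h2]
    linarith
  have h5 := sum_dc c h0
  have h6 : ∑ p, ∑ q, ∑ a, L * ((1 - B p q a) * dc c p q a ^ 2) =
      L * (∑ p, ∑ q, ∑ a, dc c p q a ^ 2 - ∑ p, ∑ q, ∑ a, B p q a * dc c p q a ^ 2) := by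
    simp only [← Finset.mul_sum, sub_mul, one_mul, Finset.sum_sub_distrib]
  refine le_trans ?_ (Finset.sum_le_sum fun p _ => Finset.sum_le_sum fun q _ =>
    Finset.sum_le_sum fun a _ => hTB p q a)
  rw [h6, h5]
  refine mul_le_mul_of_nonneg_left ?_ hL
  linarith

/-- the conclusion -/
theorem eq_zero (c : Fin N → Fin N → ℝ) (h : n2 c ≤ 0) : c = 0 := by
  have h2 : n2 c = 0 := le_antisymm h (n2_nonneg c)
  funext p q
  unfold n2 at h2
  have h3 := (Finset.sum_eq_zero_iff_of_nonneg fun p _ => Finset.sum_nonneg fun q _ =>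
    sq_nonneg (c p q)).1 h2 p (Finset.mem_univ p)
  have h4 := (Finset.sum_eq_zero_iff_of_nonneg fun q _ => sq_nonneg (c p q)).1 h3 q
    (Finset.mem_univ q)
  exact pow_eq_zero_iff (two_ne_zero) |>.1 h4

end Pool.Agent.W5h29.LU.Alg
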