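import Pool.Agent.W5h29.LU.Est
import Pool.Agent.W5h29.LU.Alg
set_option autoImplicit false

/-!
The regulators are independent: the general criterion.
-/

namespace Pool.Agent.W5h29.LU

open MvPolynomial

open Pool.Agent.TH826.MK (KQ symb Torus pairing norm_circ contDiff_circ circ_add_one
  hasDerivAt_circ)

open Pool.Agent.TH826.UH (pr NZ nz_circ pairing_eq_pr pr_prod pr_mul ld_circ)

open Pool.Agent.W5h29.LA (Dat)

open Pool.Agent.W5h29.LA.Dat

variable {K : Type*} [Field K] {N : ℕ} {D : Dat K N} {σ : K →+* ℂ}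

/-- the value of the linear polynomial at the node -/
noncomputable def Aa (D : Dat K N) (σ : K →+* ℂ) (p q a : Fin N) : ℂ :=
  σ (D.det3 p q a) / σ (D.det2 p q)

/-- the coefficients in the scale `R` -/
noncomputable def rr (D : Dat K N) (σ : K →+* ℂ) (R : ℝ) (p q a : Fin N) : ℂ :=
  R * D.ra σ p q a / Aa D σ p q a

/-- the coefficients in the scale `R` -/
noncomputable def ss (D : Dat K N) (σ : K →+* ℂ) (R : ℝ) (p q a : Fin N) : ℂ :=
  R * D.sa σ p q a / Aa D σ p q a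

theorem norm_Aa (hdir : D.Directions) {p q : Fin N} (hd : D.det2 p q ≠ 0) (a : Fin N) :
    ‖Aa D σ p q a‖ = ‖σ (D.det3 p q a)‖ := by
  unfold Aa
  rw [norm_div, norm_det2 hdir σ hd, div_one]

theorem val_pt' {R : ℝ} (hR : 0 < R) {p q a : Fin N} (hd : D.det2 p q ≠ 0)
    (hA : Aa D σ p q a ≠ 0) (X Y : ℂ) :
    D.val σ (D.pt σ p q (R * X) (R * Y)) a =
      Aa D σ p q a * Nd.M (rr D σ R p q) (ss D σ R p q) a X Y := by
  have hR0 : (R : ℂ) ≠ 0 := by
    exact_mod_cast hR.ne'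
  rw [val_pt hR hd]
  unfold Nd.M rr ss LA.Nd.M La
  change _ = Aa D σ p q a * _
  have e : σ (D.det3 p q a) / σ (D.det2 p q) = Aa D σ p q a := rfl
  rw [e]
  field_simp

theorem norm_coef (hdir : D.Directions) {η R : ℝ} (hR : 0 < R) (hRη : R ≤ η) {p q a : Fin N}
    (hd : D.det2 p q ≠ 0) (h1 : 1 ≤ ‖σ (D.det3 p q a)‖) {x : ℂ} (hx : ‖x‖ ≤ 1) :
    ‖R * x / Aa D σ p q a‖ ≤ η := by
  rw [norm_div, norm_mul, norm_Aa hdir hd, Complex.norm_real, Real.norm_eq_abs, abs_of_pos hR,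
    div_le_iff₀ (by linarith)]
  calc R * ‖x‖ ≤ R * 1 := mul_le_mul_of_nonneg_left hx hR.le
    _ ≤ η * 1 := by linarith
    _ ≤ η * ‖σ (D.det3 p q a)‖ := mul_le_mul_of_nonneg_left h1 (by linarith)

/-- the loop around a node -/
theorem exists_loop (hdir : D.Directions) {η : ℝ} (hη : 0 ≤ η) (hN : (N : ℝ) * η ≤ 1 / 10)
    (hl0 : σ D.lam ≠ 0) {p q : Fin N} (hd : D.det2 p q ≠ 0)
    (h1 : ∀ a, a ≠ p → a ≠ q → 1 ≤ ‖σ (D.det3 p q a)‖)
    (hK : 1 ≤ η ^ 2 * (‖σ D.lam‖ * ∏ a ∈ oth p q, ‖σ (D.det3 p q a)‖)) :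
    ∃ (E : Fin N → Fin N → ℝ) (T : Torus D.CRing 1),
      (∀ θ y, T.e θ (D.cst y) = σ y) ∧
      (∀ a b, T.reg (symb ![D.u a, D.u b]) = E a b) ∧
      (∀ a b, E b a = -E a b) ∧ ∑ b, E p b = 2 * Real.pi * Real.log ‖σ D.lam‖ ∧
      (∀ a, a ≠ p → a ≠ q → ∑ b, E a b = 0) ∧
      (∀ a, a ≠ p → a ≠ q → |E p a + 2 * Real.pi * Real.log ‖σ (D.det3 p q a)‖| ≤
        7 * Real.pi * η) ∧
      ∀ a b, a ≠ p → a ≠ q → b ≠ p → b ≠ q → |E a b| ≤ 22 * Real.pi * η ^ 2 := by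
  classical
  have hpq := ne_of_det2 hd
  set κ : ℝ := ‖σ D.lam‖ * ∏ a ∈ oth p q, ‖σ (D.det3 p q a)‖ with hκ
  have hκ0 : 0 < κ := by
    by_contra h
    push Not at h
    have := mul_nonpos_of_nonneg_of_nonpos (sq_nonneg η) h
    linarith
  set R : ℝ := (Real.sqrt κ)⁻¹ with hRdef
  have hsq : 0 < Real.sqrt κ := Real.sqrt_pos.2 hκ0
  have hR : 0 < R := inv_pos.2 hsq
  have hR2 : R ^ 2 * κ = 1 := by
    rw [hRdef, inv_pow, Real.sq_sqrt hκ0.le, inv_mul_cancel₀ hκ0.ne']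
  have hRη : R ≤ η := by
    have h2 : R ^ 2 * κ ≤ η ^ 2 * κ := by
      rw [hR2]
      exact hK
    exact (pow_le_pow_iff_left₀ hR.le hη two_ne_zero).1 (le_of_mul_le_mul_right h2 hκ0)
  have hR0 : (R : ℂ) ≠ 0 := by
    exact_mod_cast hR.ne'
  have hA0 : ∀ a ∈ oth p q, Aa D σ p q a ≠ 0 := by
    intro a ha
    rw [← norm_pos_iff, norm_Aa hdir hd]
    have := h1 a (mem_oth.1 ha).1 (mem_oth.1 ha).2
    linarith
  set u : ℂ := (σ D.lam * (R : ℂ) ^ 2 * ∏ a ∈ oth p q, Aa D σ p q a)⁻¹ with hu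
  have hunorm : ‖u‖ = 1 := by
    rw [hu, norm_inv, norm_mul, norm_mul, norm_prod, norm_pow, Complex.norm_real, Real.norm_eq_abs,
      abs_of_pos hR]
    simp only [norm_Aa hdir hd]
    have e : ‖σ D.lam‖ * R ^ 2 * ∏ a ∈ oth p q, ‖σ (D.det3 p q a)‖ = R ^ 2 * κ := by
      rw [hκ]
      ring
    rw [e, hR2, inv_one]
  have hcard : ((oth p q).card : ℝ) + 2 = N := by
    rw [card_oth hpq]
    have h2 : 2 ≤ N := by
      have h3 := p.isLt
      have h4 := q.isLt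
      by_contra h
      apply hpq
      apply Fin.ext
      omega
    push_cast [h2]
    ring
  have hg : Nd.Good (oth p q) (rr D σ R p q) (ss D σ R p q) u η := by
    refine ⟨fun a ha => ?_, fun a ha => ?_, hunorm, hη, ?_⟩
    · refine norm_coef hdir hR hRη hd (h1 a (mem_oth.1 ha).1 (mem_oth.1 ha).2) ?_
      unfold ra
      rw [norm_div, norm_det2 hdir σ hd, div_one]
      exact norm_det2_le hdir σ _ _
    · refine norm_coef hdir hR hRη hd (h1 a (mem_oth.1 ha).1 (mem_oth.1 ha).2) ?_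
      unfold sa
      rw [norm_div, norm_det2 hdir σ hd, div_one]
      exact norm_det2_le hdir σ _ _
    · rw [hcard]
      exact hN
  obtain ⟨Y, y1, y2, y3, y4, y5, y6⟩ := Nd.exists_Y hg
  have hL : Nd.Lp (oth p q) (rr D σ R p q) (ss D σ R p q) u η Y := ⟨hg, y1, y2, y3, y4, y5, y6⟩
  set Z : ℝ → Fin 2 → ℂ := fun t => D.pt σ p q (R * TH826.MK.circ 1 t) (R * Y t) with hZdef
  have hZ : ∀ i, ContDiff ℝ 2 fun t => Z t i := by
    intro i
    have c1 : ContDiff ℝ 2 fun t => (R : ℂ) * TH826.MK.circ 1 t := contDiff_const.mul (contDiff_circ 1)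
    have c2 : ContDiff ℝ 2 fun t => (R : ℂ) * Y t := contDiff_const.mul y1
    fin_cases i
    · exact ((contDiff_const.mul (c1.sub contDiff_const)).sub
        (contDiff_const.mul (c2.sub contDiff_const))).div_const _
    · exact ((contDiff_const.mul (c2.sub contDiff_const)).sub
        (contDiff_const.mul (c1.sub contDiff_const))).div_const _
  have hZ1 : ∀ t, Z (t + 1) = Z t := by
    intro t
    simp only [hZdef]
    rw [circ_add_one, y2]
  set f : Fin N → ℝ → ℂ := fun a t => D.val σ (Z t) a with hf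
  have vp : f p = fun t => (R : ℂ) * TH826.MK.circ 1 t := funext fun t => by
    simp only [hf, hZdef]
    rw [val_pt_left hd]
  have vq : f q = fun t => (R : ℂ) * Y t := funext fun t => by
    simp only [hf, hZdef]
    rw [val_pt_right hd]
  have va : ∀ a ∈ oth p q, f a =
      fun t => Aa D σ p q a * Nd.M (rr D σ R p q) (ss D σ R p q) a (TH826.MK.circ 1 t) (Y t) :=
    fun a ha => funext fun t => by
      simp only [hf, hZdef]
      exact val_pt' hR hd (hA0 a ha) _ _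
  have hprod : ∀ t, ∏ a, f a t = (σ D.lam)⁻¹ := by
    intro t
    rw [← Finset.mul_prod_erase _ _ (Finset.mem_univ p),
      ← Finset.mul_prod_erase _ _ (Finset.mem_erase.2 ⟨hpq.symm, Finset.mem_univ q⟩),
      congrFun vp t, congrFun vq t]
    have e : ∏ a ∈ (Finset.univ.erase p).erase q, f a t = (∏ a ∈ oth p q, Aa D σ p q a) *
        ∏ a ∈ oth p q, Nd.M (rr D σ R p q) (ss D σ R p q) a (TH826.MK.circ 1 t) (Y t) := by
      rw [← Finset.prod_mul_distrib]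
      exact Finset.prod_congr rfl fun a ha => congrFun (va a ha) t
    have hP : ∏ a ∈ oth p q, Aa D σ p q a ≠ 0 := Finset.prod_ne_zero_iff.2 hA0
    have e2 : (R : ℂ) * TH826.MK.circ 1 t * ((R : ℂ) * Y t *
        ((∏ a ∈ oth p q, Aa D σ p q a) *
        ∏ a ∈ oth p q, Nd.M (rr D σ R p q) (ss D σ R p q) a (TH826.MK.circ 1 t) (Y t))) =
        (R : ℂ) ^ 2 * (∏ a ∈ oth p q, Aa D σ p q a) * (TH826.MK.circ 1 t * Y t *
        ∏ a ∈ oth p q, Nd.M (rr D σ R p q) (ss D σ R p q) a (TH826.MK.circ 1 t) (Y t)) := by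
      ring
    rw [e, e2, y6 t, hu]
    field_simp
  have hz : ∀ t, eval₂Hom σ (Z t) D.eqn = 0 := by
    intro t
    unfold Dat.eqn
    rw [map_sub, map_mul, map_prod, eval₂Hom_C, map_one]
    simp only [eval_line']
    have h7 := hprod t
    simp only [hf] at h7
    rw [h7, mul_inv_cancel₀ hl0, sub_self]
  have hnf : ∀ a, NZ (f a) := by
    intro a
    have hcR : NZ fun _ : ℝ => (R : ℂ) := ⟨contDiff_const, fun _ => hR0⟩
    by_cases hap : a = p
    · rw [hap, vp]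
      exact hcR.mul (nz_circ one_pos)
    by_cases haq : a = q
    · rw [haq, vq]
      exact hcR.mul hL.nzY
    have ha : a ∈ oth p q := mem_oth.2 ⟨hap, haq⟩
    have hcA : NZ fun _ : ℝ => Aa D σ p q a := ⟨contDiff_const, fun _ => hA0 a ha⟩
    rw [va a ha]
    exact hcA.mul (hL.nzM ha)
  have hrow : ∀ a, ∑ b, pr (f a) (f b) = Real.log ‖σ D.lam‖ * Nd.wi (f a) := by
    intro a
    rw [← pr_prod Finset.univ (hnf a) (H := f) hnf]
    simp only [hprod]
    rw [Nd.pr_cst, norm_inv, Real.log_inv]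
    ring
  refine ⟨fun a b => pr (f a) (f b), mkL hZ hZ1 hz,
    fun θ y => ev_cst (Z (θ 0)) (hz (θ 0)) y, fun a b => mkL_reg hZ hZ1 hz hnf a b,
    fun a b => LA.Nd.pr_antisymm _ _, ?_, ?_, ?_, ?_⟩
  · rw [hrow p, vp, Nd.wi_mul_const hR0, Nd.wi_circ]
    ring
  · intro a hap haq
    have ha : a ∈ oth p q := mem_oth.2 ⟨hap, haq⟩
    simp only
    rw [hrow a, va a ha, Nd.wi_mul_const (hA0 a ha), hL.wind ha, mul_zero]
  · intro a hap haq
    have ha : a ∈ oth p q := mem_oth.2 ⟨hap, haq⟩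
    simp only
    rw [vp, va a ha, Nd.pr_scale (nz_circ one_pos) (hL.nzM ha) hR0 (hA0 a ha), hL.wind ha,
      Nd.wi_circ, norm_Aa hdir hd]
    have e : pr (TH826.MK.circ 1)
        (fun t => Nd.M (rr D σ R p q) (ss D σ R p q) a (TH826.MK.circ 1 t) (Y t)) +
        Real.log ‖(R : ℂ)‖ * 0 - Real.log ‖σ (D.det3 p q a)‖ * (2 * Real.pi) +
        2 * Real.pi * Real.log ‖σ (D.det3 p q a)‖ = pr (TH826.MK.circ 1)
        (fun t => Nd.M (rr D σ R p q) (ss D σ R p q) a (TH826.MK.circ 1 t) (Y t)) := by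
      ring
    rw [e]
    exact hL.est1 ha
  · intro a b hap haq hbp hbq
    have ha : a ∈ oth p q := mem_oth.2 ⟨hap, haq⟩
    have hb : b ∈ oth p q := mem_oth.2 ⟨hbp, hbq⟩
    simp only
    rw [va a ha, va b hb, Nd.pr_scale (hL.nzM ha) (hL.nzM hb) (hA0 a ha) (hA0 b hb), hL.wind ha,
      hL.wind hb, mul_zero, mul_zero, add_zero, sub_zero]
    exact hL.est2 ha hb

/-- the inequality for a circulation whose regulator vanishes -/
theorem ineq (hdir : D.Directions) {η : ℝ} (hη : 0 ≤ η) (hN : (N : ℝ) * η ≤ 1 / 10)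
    (hl0 : σ D.lam ≠ 0)
    (h1 : ∀ p q a, D.det2 p q ≠ 0 → a ≠ p → a ≠ q → 1 ≤ ‖σ (D.det3 p q a)‖)
    (hK : ∀ p q, D.det2 p q ≠ 0 →
      1 ≤ η ^ 2 * (‖σ D.lam‖ * ∏ a ∈ oth p q, ‖σ (D.det3 p q a)‖))
    {c : Fin N → Fin N → ℝ} (hc : c ∈ D.circ ℝ)
    (hreg : ∀ T : Torus D.CRing 1, (∀ θ y, T.e θ (D.cst y) = σ y) →
      ∑ p, ∑ q, c p q * T.reg (symb ![D.u p, D.u q]) = 0) :
    2 * Real.pi * Real.log ‖σ D.lam‖ * LA.Alg.n2 c + 2 / 3 * Real.pi *
      ∑ p, ∑ q, ∑ a, Real.log ‖σ (D.det3 p q a)‖ * LA.Alg.dc c p q a ^ 2 ≤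
      7 * Real.pi * η * (3 * N * LA.Alg.n2 c) +
        22 * Real.pi * η ^ 2 * (3 / 2 * N ^ 2 * LA.Alg.n2 c) := by
  obtain ⟨hc1, hc2, hc3⟩ := hc
  refine Alg.main c hc1 (fun p q a => Real.log ‖σ (D.det3 p q a)‖) ?_ (by positivity)
    (by positivity) ?_
  · intro p q a
    have e : D.det3 q a p = D.det3 p q a := by
      unfold Dat.det3
      ring
    simp only [e]
  · intro p q hpq0
    have hd : D.det2 p q ≠ 0 := fun h => hpq0 (hc2 p q h)
    obtain ⟨E, T, hT, hE, hanti, hp, hA, he, hF⟩ :=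
      exists_loop hdir hη hN hl0 hd (fun a => h1 p q a hd) (hK p q hd)
    refine ⟨fun a => E p a, E, he, hF, ?_⟩
    have h2 := hreg T hT
    simp only [hE] at h2
    have h3 := LA.Alg.identity (ne_of_det2 hd) c E hc1 hanti _ hp hA
    rw [h2, mul_zero] at h3
    exact h3.symm

end Pool.Agent.W5h29.LU
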