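import Pool.Agent.W5h29.LU.Comb
import Pool.Agent.W5h29.LU.Alg
set_option autoImplicit false

/-!
Lower bounds for the quadratic form `∑ log |det3| dc ^ 2` on the circulations.
-/

namespace Pool.Agent.W5h29.LU

open Pool.Agent.W5h29.LA (Dat)

open Pool.Agent.W5h29.LA.Dat

open Pool.Agent.W5h29.LA.Alg (n2 n2_nonneg dc sum_dc cyc)

variable {N : ℕ} {D : Dat ℚ N}

/-- parallelity is transitive -/
theorem par_trans (hD : D.Directions) {p q a : Fin N} (h1 : D.det2 p q = 0) (h2 : D.det2 q a = 0) :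
    D.det2 p a = 0 := by
  obtain ⟨r, hr⟩ := hD.2 q
  have h3 := pluecker D q r p a
  have h4 : D.det2 a q = 0 := by
    rw [D.det2_symm, h2, neg_zero]
  rw [h4, h1, mul_zero, mul_zero, sub_zero] at h3
  exact (mul_eq_zero.1 h3).resolve_left hr

theorem par_symm {p q : Fin N} (h : D.det2 p q = 0) : D.det2 q p = 0 := by
  rw [D.det2_symm, h, neg_zero]

theorem det3_cyc (D : Dat ℚ N) (p q a : Fin N) : D.det3 q a p = D.det3 p q a := by
  unfold Dat.det3
  ring

theorem det3_swap (D : Dat ℚ N) (p q a : Fin N) : D.det3 p a q = -D.det3 p q a := by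
  unfold Dat.det3 Dat.det2
  ring

/-- two parallel lines -/
theorem par_line (hD : D.Directions) {p₀ p₁ : Fin N} (h : D.det2 p₀ p₁ = 0) :
    ∃ ε d : ℚ, (ε = 1 ∨ ε = -1) ∧ (∀ p q, D.det3 p q p₁ = ε * D.det3 p q p₀ + d * D.det2 p q) ∧
      ∀ q, D.det3 p₀ p₁ q = -(d * D.det2 p₀ q) := by
  obtain ⟨q, hq⟩ := hD.2 p₀
  have hq1 : D.det2 p₁ q ≠ 0 := fun h1 => hq (par_trans hD h h1)
  set ε : ℚ := D.det2 p₁ q / D.det2 p₀ q with hε
  have e1 : D.det2 p₀ q * D.al p₁ = D.det2 p₁ q * D.al p₀ := by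
    have h2 : D.det2 p₀ q * D.al p₁ - D.det2 p₁ q * D.al p₀ = D.det2 p₀ p₁ * D.al q := by
      unfold Dat.det2
      ring
    rw [h] at h2
    linarith
  have e2 : D.det2 p₀ q * D.be p₁ = D.det2 p₁ q * D.be p₀ := by
    have h2 : D.det2 p₀ q * D.be p₁ - D.det2 p₁ q * D.be p₀ = D.det2 p₀ p₁ * D.be q := by
      unfold Dat.det2
      ring
    rw [h] at h2
    linarith
  have ea : D.al p₁ = ε * D.al p₀ := by
    rw [hε]
    field_simp
    linarith
  have eb : D.be p₁ = ε * D.be p₀ := by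
    rw [hε]
    field_simp
    linarith
  refine ⟨ε, D.ga p₁ - ε * D.ga p₀, ?_, fun p q => ?_, fun q => ?_⟩
  · rw [hε]
    rcases det2_cases hD p₀ q with h0 | h0 | h0
    · exact absurd h0 hq
    · rcases det2_cases hD p₁ q with h1 | h1 | h1
      · exact absurd h1 hq1
      · left; rw [h0, h1]; norm_num
      · right; rw [h0, h1]; norm_num
    · rcases det2_cases hD p₁ q with h1 | h1 | h1
      · exact absurd h1 hq1
      · right; rw [h0, h1]; norm_num
      · left; rw [h0, h1]; norm_num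
  · unfold Dat.det3 Dat.det2
    rw [ea, eb]
    ring
  · unfold Dat.det3 Dat.det2
    rw [ea, eb]
    ring

section

variable {c : Fin N → Fin N → ℝ}

theorem dc_diag (hc : c ∈ D.circ ℝ) (p q : Fin N) : dc c p p q = 0 ∧ dc c p q p = 0 ∧
    dc c p q q = 0 := by
  obtain ⟨h1, h2, h3⟩ := hc
  have h0 : ∀ a, c a a = 0 := fun a => h2 a a (det2_self a)
  unfold dc
  refine ⟨?_, ?_, ?_⟩
  · rw [h0, h1 p q]; ring
  · rw [h0, h1 p q]; ring
  · rw [h0, h1 p q]; ring

/-- where the coboundary does not vanish the determinant is not zero -/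
theorem det3_ne (hD : D.Directions) (hG : D.Generic) (hc : c ∈ D.circ ℝ) {p q a : Fin N}
    (h : dc c p q a ≠ 0) : D.det3 p q a ≠ 0 := by
  have h1 : p ≠ q := by
    rintro rfl
    exact h (dc_diag hc p a).1
  have h2 : a ≠ p := by
    rintro rfl
    exact h (dc_diag hc a q).2.1
  have h3 : a ≠ q := by
    rintro rfl
    exact h (dc_diag hc p a).2.2
  by_cases d1 : D.det2 p q = 0
  · by_cases d2 : D.det2 q a = 0
    · exfalso
      apply h
      have d3 := par_symm (par_trans hD d1 d2)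
      unfold dc
      rw [hc.2.1 p q d1, hc.2.1 q a d2, hc.2.1 a p d3]
      ring
    · rw [← det3_cyc]
      exact hG q a p d2 h1 h2.symm
  · exact hG p q a d1 h2 h3

/-- the logarithms of the determinants -/
noncomputable def TT (D : Dat ℚ N) (p q a : Fin N) : ℝ := Real.log |((D.det3 p q a : ℚ) : ℝ)|

/-- the quadratic form -/
noncomputable def QQ (D : Dat ℚ N) (c : Fin N → Fin N → ℝ) : ℝ :=
  ∑ p, ∑ q, ∑ a, TT D p q a * dc c p q a ^ 2

theorem TT_nonneg (hI : D.Integral) {p q a : Fin N} (h : D.det3 p q a ≠ 0) : 0 ≤ TT D p q a := by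
  apply Real.log_nonneg
  have h1 := one_le_abs_of_int (det3_int hI p q a) h
  exact_mod_cast h1

theorem TT_ge (hI : D.Integral) {p q a : Fin N} (h : D.det3 p q a ≠ 0)
    (h1 : |D.det3 p q a| ≠ 1) : Real.log 2 ≤ TT D p q a := by
  apply Real.log_le_log (by norm_num)
  have h2 := two_le_abs_of_int (det3_int hI p q a) h h1
  exact_mod_cast h2

theorem QQ_nonneg (hI : D.Integral) (hD : D.Directions) (hG : D.Generic) (hc : c ∈ D.circ ℝ) :
    0 ≤ QQ D c := by
  unfold QQ
  refine Finset.sum_nonneg fun p _ => Finset.sum_nonneg fun q _ => Finset.sum_nonneg fun a _ => ?_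
  by_cases h : dc c p q a = 0
  · rw [h]; simp
  · exact mul_nonneg (TT_nonneg hI (det3_ne hD hG hc h)) (sq_nonneg _)

/-- the exceptional triples -/
noncomputable def BB (D : Dat ℚ N) (p q a : Fin N) : ℝ := if |D.det3 p q a| = 1 then 1 else 0

/-- the other triples -/
noncomputable def bb (D : Dat ℚ N) (p q a : Fin N) : ℝ := if 2 ≤ |D.det3 p q a| then 1 else 0

theorem BB_nonneg (D : Dat ℚ N) (p q a : Fin N) : 0 ≤ BB D p q a := by
  unfold BB
  split_ifs <;> norm_num

theorem bb_nonneg (D : Dat ℚ N) (p q a : Fin N) : 0 ≤ bb D p q a := by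
  unfold bb
  split_ifs <;> norm_num

theorem sum_BB (hG : D.Generic) (hD : D.Directions) {p q : Fin N} (hd : D.det2 p q ≠ 0) :
    ∑ a, BB D p q a ≤ 6 := by
  classical
  unfold BB
  rw [Finset.sum_boole]
  have h := mult_le hG hD hd (j := 1) (Finset.univ.filter fun a => |D.det3 p q a| = 1)
    (fun a ha => (Finset.mem_filter.1 ha).2)
  exact_mod_cast h

/-- many lines -/
theorem pos_many (hI : D.Integral) (hD : D.Directions) (hG : D.Generic) (hc : c ∈ D.circ ℝ) :
    Real.log 2 * ((3 * N - 9 * 6) * n2 c) ≤ QQ D c := by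
  refine Alg.lower c hc.2.2 (TT D) (BB D) (fun p q a => ?_) (BB_nonneg D)
    (Real.log_nonneg (by norm_num)) (fun p q h => ?_) (fun p q a => ?_)
  · unfold BB
    rw [det3_cyc]
  · exact sum_BB hG hD fun h0 => h (hc.2.1 p q h0)
  · by_cases h : dc c p q a = 0
    · rw [h]; simp
    have h1 := det3_ne hD hG hc h
    unfold BB
    split_ifs with h2
    · rw [sub_self, zero_mul, mul_zero]
      exact mul_nonneg (TT_nonneg hI h1) (sq_nonneg _)
    · rw [sub_zero, one_mul]
      exact mul_le_mul_of_nonneg_right (TT_ge hI h1 h2) (sq_nonneg _)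

/-- the sum over the other triples -/
noncomputable def SS (D : Dat ℚ N) (c : Fin N → Fin N → ℝ) : ℝ :=
  ∑ p, ∑ q, ∑ a, bb D p q a * dc c p q a ^ 2

theorem SS_le (hI : D.Integral) (hD : D.Directions) (hG : D.Generic) (hc : c ∈ D.circ ℝ) :
    Real.log 2 * SS D c ≤ QQ D c := by
  unfold SS QQ
  rw [Finset.mul_sum]
  refine Finset.sum_le_sum fun p _ => ?_
  rw [Finset.mul_sum]
  refine Finset.sum_le_sum fun q _ => ?_
  rw [Finset.mul_sum]
  refine Finset.sum_le_sum fun a _ => ?_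
  by_cases h : dc c p q a = 0
  · rw [h]; simp
  have h1 := det3_ne hD hG hc h
  rw [← mul_assoc]
  refine mul_le_mul_of_nonneg_right ?_ (sq_nonneg _)
  unfold bb
  split_ifs with h2
  · rw [mul_one]
    refine TT_ge hI h1 fun h3 => ?_
    rw [h3] at h2
    norm_num at h2
  · rw [mul_zero]
    exact TT_nonneg hI h1

theorem term_nonneg (D : Dat ℚ N) (c : Fin N → Fin N → ℝ) (p q a : Fin N) :
    0 ≤ bb D p q a * dc c p q a ^ 2 := mul_nonneg (bb_nonneg D p q a) (sq_nonneg _)

theorem slice2 (D : Dat ℚ N) (c : Fin N → Fin N → ℝ) (p : Fin N) :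
    ∑ q, ∑ a, bb D p q a * dc c p q a ^ 2 ≤ SS D c :=
  Finset.single_le_sum (f := fun p => ∑ q, ∑ a, bb D p q a * dc c p q a ^ 2)
    (fun p _ => Finset.sum_nonneg fun q _ => Finset.sum_nonneg fun a _ => term_nonneg D c p q a)
    (Finset.mem_univ p)

theorem slice1 (D : Dat ℚ N) (c : Fin N → Fin N → ℝ) (p q : Fin N) :
    ∑ a, bb D p q a * dc c p q a ^ 2 ≤ SS D c :=
  (Finset.single_le_sum (f := fun q => ∑ a, bb D p q a * dc c p q a ^ 2)
    (fun q _ => Finset.sum_nonneg fun a _ => term_nonneg D c p q a)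
    (Finset.mem_univ q)).trans (slice2 D c p)

/-- two distant parallel lines -/
theorem pos_far (hI : D.Integral) (hD : D.Directions) (hG : D.Generic) (hc : c ∈ D.circ ℝ)
    {p₀ p₁ q₀ : Fin N} (h01 : D.det2 p₀ p₁ = 0) (hq₀ : D.det2 p₀ q₀ ≠ 0)
    (hfar : 3 ≤ |D.det3 p₀ p₁ q₀|) : n2 c ≤ 40 * SS D c := by
  obtain ⟨ε, d, hε, hr1, hr2⟩ := par_line hD h01
  have hdd : ∀ x y, D.det2 x y ≠ 0 → |D.det2 x y| = 1 := by
    intro x y h
    rcases det2_cases hD x y with h0 | h0 | h0
    · exact absurd h0 h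
    · rw [h0]; norm_num
    · rw [h0]; norm_num
  have hd3 : 3 ≤ |d| := by
    rw [hr2, abs_neg, abs_mul, hdd _ _ hq₀, mul_one] at hfar
    exact hfar
  have hεa : |ε| = 1 := by
    rcases hε with h | h <;> rw [h] <;> norm_num
  -- the far triples
  have hfar' : ∀ q, D.det2 p₀ q ≠ 0 → bb D p₀ p₁ q = 1 := by
    intro q hq
    unfold bb
    rw [if_pos]
    rw [hr2, abs_neg, abs_mul, hdd _ _ hq, mul_one]
    linarith
  have hF : ∀ q, dc c p₀ p₁ q ^ 2 = bb D p₀ p₁ q * dc c p₀ p₁ q ^ 2 := by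
    intro q
    by_cases hq : D.det2 p₀ q = 0
    · have h1 : dc c p₀ p₁ q = 0 := by
        have h2 := par_trans hD (par_symm h01) hq
        unfold dc
        rw [hc.2.1 _ _ h01, hc.2.1 _ _ h2, hc.2.1 _ _ (par_symm hq)]
        ring
      rw [h1]; simp
    · rw [hfar' q hq, one_mul]
  have hFz : ∀ q, D.det2 p₀ q = 0 → bb D p₀ p₁ q * dc c p₀ p₁ q ^ 2 = 0 := by
    intro q hq
    unfold bb
    rw [if_neg, zero_mul]
    rw [hr2, hq]
    norm_num
  have hnear : ∀ p q, D.det2 p q ≠ 0 → |D.det3 p₀ p q| = 1 → bb D p₁ p q = 1 := by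
    intro p q hpq h1
    unfold bb
    rw [if_pos]
    have e1 : D.det3 p₁ p q = D.det3 p q p₁ := (det3_cyc D p₁ p q).symm
    have e2 : D.det3 p₀ p q = D.det3 p q p₀ := (det3_cyc D p₀ p q).symm
    rw [e1, hr1]
    rw [e2] at h1
    have h2 : |d * D.det2 p q| ≤ |ε * D.det3 p q p₀ + d * D.det2 p q| + |ε * D.det3 p q p₀| := by
      have e : d * D.det2 p q = (ε * D.det3 p q p₀ + d * D.det2 p q) - ε * D.det3 p q p₀ := by ring
      conv_lhs => rw [e]
      exact abs_sub _ _
    rw [abs_mul, hdd _ _ hpq, mul_one, abs_mul ε, hεa, one_mul, h1] at h2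
    linarith
  -- the bound for the terms
  set u : Fin N → Fin N → ℝ := fun p q => bb D p₀ p q * dc c p₀ p q ^ 2 +
    3 * (bb D p₁ p q * dc c p₁ p q ^ 2) + 3 * (BB D p₀ p q * (bb D p₀ p₁ p * dc c p₀ p₁ p ^ 2)) +
    3 * (BB D p₀ p q * (bb D p₀ p₁ q * dc c p₀ p₁ q ^ 2)) with hu
  have hu0 : ∀ p q, 0 ≤ u p q := by
    intro p q
    have t1 := term_nonneg D c p₀ p q
    have t2 := term_nonneg D c p₁ p q
    have t3 := mul_nonneg (BB_nonneg D p₀ p q) (term_nonneg D c p₀ p₁ p)
    have t4 := mul_nonneg (BB_nonneg D p₀ p q) (term_nonneg D c p₀ p₁ q)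
    simp only [hu]
    linarith
  have hterm : ∀ p q, c p q ≠ 0 → dc c p₀ p q ^ 2 ≤ u p q := by
    intro p q hpq0
    have hpq : D.det2 p q ≠ 0 := fun h => hpq0 (hc.2.1 p q h)
    have t1 := term_nonneg D c p₀ p q
    have t2 := term_nonneg D c p₁ p q
    have t3 := mul_nonneg (BB_nonneg D p₀ p q) (term_nonneg D c p₀ p₁ p)
    have t4 := mul_nonneg (BB_nonneg D p₀ p q) (term_nonneg D c p₀ p₁ q)
    by_cases hz : dc c p₀ p q = 0
    · rw [hz]
      have := hu0 p q
      linarith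
    have hne := det3_ne hD hG hc hz
    by_cases h1 : |D.det3 p₀ p q| = 1
    · have e1 : BB D p₀ p q = 1 := by
        unfold BB
        rw [if_pos h1]
      have e2 := hnear p q hpq h1
      have e3 : dc c p₀ p q = dc c p₁ p q + dc c p₀ p₁ q - dc c p₀ p₁ p := by
        have a1 := hc.1 p₁ q
        have a2 := hc.1 p₀ p
        unfold dc
        linarith
      have e4 : dc c p₀ p q ^ 2 ≤ 3 * dc c p₁ p q ^ 2 + 3 * dc c p₀ p₁ p ^ 2 +
          3 * dc c p₀ p₁ q ^ 2 := by
        rw [e3]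
        nlinarith [sq_nonneg (dc c p₁ p q - dc c p₀ p₁ q), sq_nonneg (dc c p₁ p q + dc c p₀ p₁ p),
          sq_nonneg (dc c p₀ p₁ q + dc c p₀ p₁ p)]
      simp only [hu]
      rw [e1, e2, one_mul, one_mul, one_mul, ← hF, ← hF]
      linarith
    · have h2 := two_le_abs_of_int (det3_int hI p₀ p q) hne h1
      have e1 : bb D p₀ p q = 1 := by
        unfold bb
        rw [if_pos h2]
      simp only [hu]
      rw [e1, one_mul] at t1 ⊢
      linarith
  -- the norm
  have hrow : ∀ p, ∑ q, c p q = 0 := by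
    intro p
    have h1 := hc.2.2 p
    rw [← neg_eq_zero, ← Finset.sum_neg_distrib] at h1
    rw [← h1]
    exact Finset.sum_congr rfl fun q _ => hc.1 q p
  have hn2 : n2 c = ∑ p, ∑ q, c p q * dc c p₀ p q := by
    have e1 : ∑ p, ∑ q, c p q * dc c p₀ p q =
        ∑ p, ∑ q, c p₀ p * c p q + ∑ p, ∑ q, c p q ^ 2 + ∑ p, ∑ q, c q p₀ * c p q := by
      simp only [← Finset.sum_add_distrib]
      refine Finset.sum_congr rfl fun p _ => Finset.sum_congr rfl fun q _ => ?_
      unfold dc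
      ring
    have e2 : ∑ p, ∑ q, c p₀ p * c p q = 0 := by
      refine Finset.sum_eq_zero fun p _ => ?_
      rw [← Finset.mul_sum, hrow, mul_zero]
    have e3 : ∑ p, ∑ q, c q p₀ * c p q = 0 := by
      rw [Finset.sum_comm]
      refine Finset.sum_eq_zero fun q _ => ?_
      rw [← Finset.mul_sum, hc.2.2, mul_zero]
    rw [e1, e2, e3]
    unfold n2
    ring
  have hle : n2 c ≤ 1 / 2 * n2 c + 1 / 2 * ∑ p, ∑ q, u p q := by
    conv_lhs => rw [hn2]
    have e : 1 / 2 * n2 c + 1 / 2 * ∑ p, ∑ q, u p q =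
        ∑ p, ∑ q, (1 / 2 * c p q ^ 2 + 1 / 2 * u p q) := by
      unfold n2
      simp only [Finset.mul_sum, ← Finset.sum_add_distrib]
    rw [e]
    refine Finset.sum_le_sum fun p _ => Finset.sum_le_sum fun q _ => ?_
    by_cases h0 : c p q = 0
    · rw [h0]
      have := hu0 p q
      linarith
    · have h1 := hterm p q h0
      nlinarith [sq_nonneg (c p q - dc c p₀ p q)]
  -- the sum of the bounds
  have s1 : ∑ p, ∑ q, bb D p₀ p q * dc c p₀ p q ^ 2 ≤ SS D c := slice2 D c p₀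
  have s2 : ∑ p, ∑ q, bb D p₁ p q * dc c p₁ p q ^ 2 ≤ SS D c := slice2 D c p₁
  have s3 : ∑ p, ∑ q, BB D p₀ p q * (bb D p₀ p₁ p * dc c p₀ p₁ p ^ 2) ≤ 6 * SS D c := by
    have h1 : ∑ p, ∑ q, BB D p₀ p q * (bb D p₀ p₁ p * dc c p₀ p₁ p ^ 2) ≤
        ∑ p, 6 * (bb D p₀ p₁ p * dc c p₀ p₁ p ^ 2) := by
      refine Finset.sum_le_sum fun p _ => ?_
      by_cases hp : D.det2 p₀ p = 0
      · rw [hFz p hp]; simp
      · rw [← Finset.sum_mul]
        exact mul_le_mul_of_nonneg_right (sum_BB hG hD hp) (term_nonneg D c p₀ p₁ p)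
    refine h1.trans ?_
    rw [← Finset.mul_sum]
    have := slice1 D c p₀ p₁
    linarith
  have s4 : ∑ p, ∑ q, BB D p₀ p q * (bb D p₀ p₁ q * dc c p₀ p₁ q ^ 2) ≤ 6 * SS D c := by
    rw [Finset.sum_comm]
    have h1 : ∑ q, ∑ p, BB D p₀ p q * (bb D p₀ p₁ q * dc c p₀ p₁ q ^ 2) ≤
        ∑ q, 6 * (bb D p₀ p₁ q * dc c p₀ p₁ q ^ 2) := by
      refine Finset.sum_le_sum fun q _ => ?_
      by_cases hq : D.det2 p₀ q = 0
      · rw [hFz q hq]; simp
      · rw [← Finset.sum_mul]
        refine mul_le_mul_of_nonneg_right ?_ (term_nonneg D c p₀ p₁ q)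
        have h2 := sum_BB hG hD hq
        refine le_trans (le_of_eq ?_) h2
        refine Finset.sum_congr rfl fun p _ => ?_
        unfold BB
        rw [det3_swap D p₀ p q, abs_neg]
    refine h1.trans ?_
    rw [← Finset.mul_sum]
    have := slice1 D c p₀ p₁
    linarith
  have hsum : ∑ p, ∑ q, u p q ≤ 40 * SS D c := by
    simp only [hu, Finset.sum_add_distrib, ← Finset.mul_sum]
    linarith
  linarith

theorem psd {β : Type*} [DecidableEq β] (f : Fin N → β) (x : Fin N → ℝ) :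
    0 ≤ ∑ p, ∑ a, if f p = f a then x p * x a else 0 := by
  classical
  have h1 : ∑ p, ∑ a, (if f p = f a then x p * x a else 0) =
      ∑ k ∈ Finset.univ.image f, (∑ p ∈ Finset.univ.filter (fun p => f p = k), x p) ^ 2 := by
    rw [← Finset.sum_fiberwise_of_maps_to (s := Finset.univ) (t := Finset.univ.image f) (g := f)
      (fun p _ => Finset.mem_image_of_mem f (Finset.mem_univ p))]
    refine Finset.sum_congr rfl fun k _ => ?_
    rw [sq, Finset.sum_mul]
    refine Finset.sum_congr rfl fun p hp => ?_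
    rw [Finset.mul_sum, Finset.sum_filter]
    refine Finset.sum_congr rfl fun a _ => ?_
    rw [(Finset.mem_filter.1 hp).2]
    by_cases h : f a = k
    · rw [if_pos h.symm, if_pos h]
    · rw [if_neg (Ne.symm h), if_neg h]
  rw [h1]
  exact Finset.sum_nonneg fun k _ => sq_nonneg _

/-- nonparallel pairs -/
noncomputable def gg (D : Dat ℚ N) (p q : Fin N) : ℝ := if D.det2 p q = 0 then 0 else 1

/-- no exceptional triangle -/
theorem pos_big (hD : D.Directions) (hc : c ∈ D.circ ℝ)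
    (h2 : ∀ p q a, D.det2 p q ≠ 0 → D.det2 q a ≠ 0 → D.det2 a p ≠ 0 → 2 ≤ |D.det3 p q a|)
    (h3 : ∀ p q, D.det2 p q ≠ 0 → ∃ a, D.det2 q a ≠ 0 ∧ D.det2 a p ≠ 0) :
    3 * n2 c ≤ SS D c := by
  classical
  have g0 : ∀ p q, 0 ≤ gg D p q := by
    intro p q
    unfold gg
    split_ifs <;> norm_num
  have gc : ∀ p q, gg D p q * c p q = c p q := by
    intro p q
    unfold gg
    split_ifs with h
    · rw [hc.2.1 p q h, mul_zero]
    · rw [one_mul]
  have hW : ∑ p, ∑ q, ∑ a, gg D p q * gg D q a * gg D a p * dc c p q a ^ 2 ≤ SS D c := by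
    unfold SS
    refine Finset.sum_le_sum fun p _ => Finset.sum_le_sum fun q _ => Finset.sum_le_sum fun a _ => ?_
    refine mul_le_mul_of_nonneg_right ?_ (sq_nonneg _)
    by_cases d1 : D.det2 p q = 0
    · unfold gg
      rw [if_pos d1, zero_mul, zero_mul]
      exact bb_nonneg D p q a
    by_cases d2 : D.det2 q a = 0
    · unfold gg
      rw [if_pos d2, mul_zero, zero_mul]
      exact bb_nonneg D p q a
    by_cases d3 : D.det2 a p = 0
    · unfold gg
      rw [if_pos d3, mul_zero]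
      exact bb_nonneg D p q a
    unfold gg bb
    rw [if_neg d1, if_neg d2, if_neg d3, if_pos (h2 p q a d1 d2 d3)]
    norm_num
  -- the cyclic sums
  set W : Fin N → Fin N → Fin N → ℝ := fun p q a => gg D p q * gg D q a * gg D a p with hWdef
  have Wc : ∀ p q a, W q a p = W p q a := by
    intro p q a
    simp only [hWdef]
    ring
  have q1 : ∑ p, ∑ q, ∑ a, W p q a * c q a ^ 2 = ∑ p, ∑ q, ∑ a, W p q a * c p q ^ 2 := by
    rw [cyc fun p q a => W p q a * c p q ^ 2]
    refine Finset.sum_congr rfl fun p _ => Finset.sum_congr rfl fun q _ =>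
      Finset.sum_congr rfl fun a _ => ?_
    rw [Wc p q a]
  have q2 : ∑ p, ∑ q, ∑ a, W p q a * c a p ^ 2 = ∑ p, ∑ q, ∑ a, W p q a * c q a ^ 2 := by
    rw [cyc fun p q a => W p q a * c q a ^ 2]
    refine Finset.sum_congr rfl fun p _ => Finset.sum_congr rfl fun q _ =>
      Finset.sum_congr rfl fun a _ => ?_
    rw [Wc p q a]
  have q3 : ∑ p, ∑ q, ∑ a, W p q a * (c q a * c a p) =
      ∑ p, ∑ q, ∑ a, W p q a * (c p q * c q a) := by
    rw [cyc fun p q a => W p q a * (c p q * c q a)]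
    refine Finset.sum_congr rfl fun p _ => Finset.sum_congr rfl fun q _ =>
      Finset.sum_congr rfl fun a _ => ?_
    rw [Wc p q a]
  have q4 : ∑ p, ∑ q, ∑ a, W p q a * (c a p * c p q) =
      ∑ p, ∑ q, ∑ a, W p q a * (c q a * c a p) := by
    rw [cyc fun p q a => W p q a * (c q a * c a p)]
    refine Finset.sum_congr rfl fun p _ => Finset.sum_congr rfl fun q _ =>
      Finset.sum_congr rfl fun a _ => ?_
    rw [Wc p q a]
  have hexp : ∑ p, ∑ q, ∑ a, W p q a * dc c p q a ^ 2 =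
      3 * ∑ p, ∑ q, ∑ a, W p q a * c p q ^ 2 + 6 * ∑ p, ∑ q, ∑ a, W p q a * (c p q * c q a) := by
    have e : ∑ p, ∑ q, ∑ a, W p q a * dc c p q a ^ 2 =
        ∑ p, ∑ q, ∑ a, W p q a * c p q ^ 2 + ∑ p, ∑ q, ∑ a, W p q a * c q a ^ 2 +
          ∑ p, ∑ q, ∑ a, W p q a * c a p ^ 2 + 2 * ∑ p, ∑ q, ∑ a, W p q a * (c p q * c q a) +
          2 * ∑ p, ∑ q, ∑ a, W p q a * (c q a * c a p) +
          2 * ∑ p, ∑ q, ∑ a, W p q a * (c a p * c p q) := by
      simp only [Finset.mul_sum, ← Finset.sum_add_distrib]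
      refine Finset.sum_congr rfl fun p _ => Finset.sum_congr rfl fun q _ =>
        Finset.sum_congr rfl fun a _ => ?_
      unfold dc
      ring
    rw [e, q4, q3, q2, q1]
    ring
  -- the mixed terms
  have hmix : 0 ≤ ∑ p, ∑ q, ∑ a, W p q a * (c p q * c q a) := by
    rw [Finset.sum_comm]
    refine Finset.sum_nonneg fun q _ => ?_
    have e1 : ∀ p a, W p q a * (c p q * c q a) = -(c p q * c a q) +
        if D.det2 a p = 0 then c p q * c a q else 0 := by
      intro p a
      have a1 := gc p q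
      have a2 := gc q a
      have a3 := hc.1 a q
      have e2 : W p q a * (c p q * c q a) = gg D a p * ((gg D p q * c p q) * (gg D q a * c q a)) := by
        simp only [hWdef]
        ring
      rw [e2, a1, a2, a3]
      unfold gg
      split_ifs <;> ring
    simp only [e1, Finset.sum_add_distrib, Finset.sum_neg_distrib]
    have e2 : ∑ p, ∑ a, c p q * c a q = 0 := by
      refine Finset.sum_eq_zero fun p _ => ?_
      rw [← Finset.mul_sum, hc.2.2, mul_zero]
    rw [e2, neg_zero, zero_add]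
    have h4 := psd (fun p => Finset.univ.filter fun a => D.det2 a p = 0) (fun p => c p q)
    refine le_trans h4 (le_of_eq ?_)
    refine Finset.sum_congr rfl fun p _ => Finset.sum_congr rfl fun a _ => ?_
    have h5 : (Finset.univ.filter (fun b => D.det2 b p = 0) =
        Finset.univ.filter fun b => D.det2 b a = 0) ↔ D.det2 a p = 0 := by
      constructor
      · intro h
        have h6 : a ∈ Finset.univ.filter (fun b => D.det2 b p = 0) := by
          rw [h]
          exact Finset.mem_filter.2 ⟨Finset.mem_univ _, det2_self a⟩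
        exact (Finset.mem_filter.1 h6).2
      · intro h
        ext b
        simp only [Finset.mem_filter, Finset.mem_univ, true_and]
        exact ⟨fun h6 => par_trans hD h6 (par_symm h), fun h6 => par_trans hD h6 h⟩
    by_cases h : D.det2 a p = 0
    · rw [if_pos (h5.2 h), if_pos h]
    · rw [if_neg fun h6 => h (h5.1 h6), if_neg h]
  -- the squares
  have hsq : n2 c ≤ ∑ p, ∑ q, ∑ a, W p q a * c p q ^ 2 := by
    unfold n2
    refine Finset.sum_le_sum fun p _ => Finset.sum_le_sum fun q _ => ?_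
    by_cases h : D.det2 p q = 0
    · rw [hc.2.1 p q h]; simp
    · obtain ⟨a, ha1, ha2⟩ := h3 p q h
      have h4 : W p q a = 1 := by
        simp only [hWdef]
        unfold gg
        rw [if_neg h, if_neg ha1, if_neg ha2]
        norm_num
      have h5 : W p q a * c p q ^ 2 ≤ ∑ a, W p q a * c p q ^ 2 :=
        Finset.single_le_sum (f := fun a => W p q a * c p q ^ 2) (fun b _ => by
          simp only [hWdef]
          exact mul_nonneg (mul_nonneg (mul_nonneg (g0 _ _) (g0 _ _)) (g0 _ _)) (sq_nonneg _))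
          (Finset.mem_univ a)
      rwa [h4, one_mul] at h5
  have h6 : ∑ p, ∑ q, ∑ a, gg D p q * gg D q a * gg D a p * dc c p q a ^ 2 =
      ∑ p, ∑ q, ∑ a, W p q a * dc c p q a ^ 2 := rfl
  rw [h6, hexp] at hW
  linarith

end

end Pool.Agent.W5h29.LU
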