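import Pool.Agent.W5h29.LU.Smooth
import Pool.Agent.W5h29.LU.Pos
import Pool.Agent.W5h29.LU.Ind
import Pool.Agent.W5h29.LA.Unr
import Pool.Agent.W5h29.LA.Circ
set_option autoImplicit false

/-!
The main theorem: almost all members of the family.
-/

namespace Pool.Agent.W5h29.LU

open Pool.Agent.W5h29.LA (Dat unramified)

open Pool.Agent.W5h29.LA.Dat

open Pool.Agent.W5h29.LA.Alg (n2 n2_nonneg dc)

open Pool.Agent.TH826.MK (symb Torus)

variable {N : ℕ} {D : Dat ℚ N} {σ : ℚ →+* ℂ}

/-- The number `|λ| ∏_a |det(L_p, L_q, L_a)|`, the product over the `a` different from `p` and `q`. -/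
def size (D : Dat ℚ N) (p q : Fin N) : ℚ :=
  |D.lam| * ∏ a ∈ (Finset.univ.erase p).erase q, |D.det3 p q a|

theorem norm_map (σ : ℚ →+* ℂ) (x : ℚ) : ‖σ x‖ = |((x : ℚ) : ℝ)| := by
  rw [eq_ratCast σ x]
  exact Complex.norm_ratCast x

theorem lam_ge (hI : D.Integral) : 1 ≤ |D.lam| :=
  one_le_abs_of_int (int_of_isIntegral hI.2.1) hI.2.2

/-- independence from positivity -/
theorem indep_of (hI : D.Integral) (hD : D.Directions) (hG : D.Generic) {η : ℝ} (hη : 0 ≤ η)
    (hN : (N : ℝ) * η ≤ 1 / 10)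
    (hK : ∀ p q, D.det2 p q ≠ 0 → 1 ≤ η ^ 2 * ((size D p q : ℚ) : ℝ)) {δ : ℝ}
    (hpos : ∀ c ∈ D.circ ℝ, δ * n2 c ≤ 2 * Real.log |((D.lam : ℚ) : ℝ)| * n2 c + 2 / 3 * QQ D c)
    (hδ : 21 * (N * η) + 33 * (N * η) ^ 2 < δ) : D.IndependentRegulators σ := by
  intro c hc hreg
  have hl0 : σ D.lam ≠ 0 := (map_ne_zero σ).2 hI.2.2
  have h1 : ∀ p q a, D.det2 p q ≠ 0 → a ≠ p → a ≠ q → 1 ≤ ‖σ (D.det3 p q a)‖ := by
    intro p q a hd ha1 ha2
    rw [norm_map]
    have h2 := one_le_abs_of_int (det3_int hI p q a) (hG p q a hd ha1 ha2)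
    exact_mod_cast h2
  have hK' : ∀ p q, D.det2 p q ≠ 0 →
      1 ≤ η ^ 2 * (‖σ D.lam‖ * ∏ a ∈ oth p q, ‖σ (D.det3 p q a)‖) := by
    intro p q hd
    have h2 := hK p q hd
    unfold size at h2
    push_cast at h2
    simp only [norm_map]
    exact h2
  have h3 := ineq hD hη hN hl0 h1 hK' hc hreg
  simp only [norm_map] at h3
  have h4 := hpos c hc
  have e : ∑ p, ∑ q, ∑ a, Real.log |((D.det3 p q a : ℚ) : ℝ)| * dc c p q a ^ 2 = QQ D c := rfl
  rw [e] at h3
  apply Alg.eq_zero
  by_contra hneg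
  push Not at hneg
  have hp := Real.pi_pos
  have h5 := mul_le_mul_of_nonneg_left h4 hp.le
  have h6 := mul_lt_mul_of_pos_right hδ (mul_pos hp hneg)
  nlinarith

theorem log2_pos : 0 < Real.log 2 := Real.log_pos (by norm_num)

theorem log_lam_nonneg (hI : D.Integral) : 0 ≤ Real.log |((D.lam : ℚ) : ℝ)| := by
  apply Real.log_nonneg
  have h := lam_ge hI
  exact_mod_cast h

/-- the scale -/
theorem eta_ok {K : ℝ} (hN : 3 ≤ N) (hK : 100 * (N : ℝ) ^ 2 ≤ K) :
    1 ≤ (1 / (10 * (N : ℝ))) ^ 2 * K := by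
  have h0 : (0 : ℝ) < N := by
    have : 0 < N := by omega
    exact_mod_cast this
  rw [div_pow, one_pow, mul_pow, one_div, inv_mul_eq_div, le_div_iff₀ (by positivity)]
  linarith

theorem mul_eta (hN : 3 ≤ N) : (N : ℝ) * (1 / (10 * (N : ℝ))) = 1 / 10 := by
  have h0 : (0 : ℝ) < N := by
    have : 0 < N := by omega
    exact_mod_cast this
  field_simp

/-- independence, the first case -/
theorem indep_many (hI : D.Integral) (hD : D.Directions) (hG : D.Generic) (hN : 20 ≤ N)
    (hK : ∀ p q, D.det2 p q ≠ 0 → 100 * (N : ℚ) ^ 2 ≤ size D p q) : D.IndependentRegulators σ := by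
  refine indep_of hI hD hG (η := 1 / (10 * (N : ℝ))) (by positivity) (by rw [mul_eta (by omega)])
    (fun p q hd => eta_ok (by omega) (by exact_mod_cast hK p q hd)) (δ := 4 * Real.log 2) ?_ ?_
  · intro c hc
    have h1 := pos_many hI hD hG hc
    have h2 := n2_nonneg c
    have h3 := log_lam_nonneg hI
    have h4 : (20 : ℝ) ≤ N := by exact_mod_cast hN
    have h5 : 6 * n2 c ≤ (3 * N - 9 * 6) * n2 c := mul_le_mul_of_nonneg_right (by linarith) h2
    have h6 := mul_le_mul_of_nonneg_left h5 log2_pos.le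
    have h7 := mul_nonneg h3 h2
    linarith
  · rw [mul_eta (by omega)]
    have := Real.log_two_gt_d9
    norm_num
    linarith

/-- independence, the second case -/
theorem indep_four (hI : D.Integral) (hD : D.Directions) (hG : D.Generic) (hN : 3 ≤ N)
    (hl : 4 ≤ |D.lam|) (hK : ∀ p q, D.det2 p q ≠ 0 → 100 * (N : ℚ) ^ 2 ≤ size D p q) :
    D.IndependentRegulators σ := by
  refine indep_of hI hD hG (η := 1 / (10 * (N : ℝ))) (by positivity) (by rw [mul_eta (by omega)])
    (fun p q hd => eta_ok (by omega) (by exact_mod_cast hK p q hd)) (δ := 4 * Real.log 2) ?_ ?_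
  · intro c hc
    have h1 := QQ_nonneg hI hD hG hc
    have h2 := n2_nonneg c
    have h3 : 2 * Real.log 2 ≤ Real.log |((D.lam : ℚ) : ℝ)| := by
      have e : 2 * Real.log 2 = Real.log 4 := by
        rw [show (4 : ℝ) = 2 ^ 2 by norm_num, Real.log_pow]
        push_cast
        ring
      rw [e]
      exact Real.log_le_log (by norm_num) (by exact_mod_cast hl)
    have h4 := mul_le_mul_of_nonneg_right h3 h2
    linarith
  · rw [mul_eta (by omega)]
    have := Real.log_two_gt_d9
    norm_num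
    linarith

/-- the product over few lines -/
theorem prod_small (hN : N ≤ 19) {p q : Fin N} (hpq : p ≠ q)
    (h : ∀ a ∈ oth p q, |D.det3 p q a| ≤ 3) : ∏ a ∈ oth p q, |D.det3 p q a| < 10 ^ 10 := by
  have h1 : ∏ a ∈ oth p q, |D.det3 p q a| ≤ ∏ a ∈ oth p q, (3 : ℚ) :=
    Finset.prod_le_prod (fun _ _ => abs_nonneg _) h
  rw [Finset.prod_const, card_oth hpq] at h1
  have h2 : (3 : ℚ) ^ (N - 2) ≤ 3 ^ 17 := pow_le_pow_right₀ (by norm_num) (by omega)
  have h3 : (3 : ℚ) ^ 17 < 10 ^ 10 := by norm_num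
  linarith

theorem le_two_of_not {x : ℚ} (h : ∃ n : ℤ, x = n) (h1 : ¬ 3 ≤ |x|) : |x| ≤ 2 := by
  obtain ⟨n, rfl⟩ := h
  rw [← Int.cast_abs] at h1 ⊢
  have h2 : ¬ (3 : ℤ) ≤ |n| := fun h => h1 (by exact_mod_cast h)
  have h3 : |n| ≤ 2 := by omega
  exact_mod_cast h3

/-- positivity for large arrangements of few lines, `λ = ± 1` -/
theorem pos_few (hI : D.Integral) (hD : D.Directions) (hG : D.Generic) (hN : N ≤ 19)
    (hK : ∀ p q, D.det2 p q ≠ 0 → 10 ^ 10 ≤ ∏ a ∈ oth p q, |D.det3 p q a|)
    {c : Fin N → Fin N → ℝ} (hc : c ∈ D.circ ℝ) : n2 c ≤ 40 * SS D c := by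
  by_cases hA : ∃ p₀ p₁ q₀, D.det2 p₀ p₁ = 0 ∧ D.det2 p₀ q₀ ≠ 0 ∧ 3 ≤ |D.det3 p₀ p₁ q₀|
  · obtain ⟨p₀, p₁, q₀, h1, h2, h3⟩ := hA
    exact pos_far hI hD hG hc h1 h2 h3
  push Not at hA
  -- the distances of the parallel lines are at most two
  have hpar : ∀ p a q, D.det2 p a = 0 → D.det2 p q ≠ 0 → |D.det3 p q a| ≤ 2 := by
    intro p a q h1 h2
    have h3 := hA p a q h1 h2
    rw [det3_swap, abs_neg] at h3
    exact le_two_of_not (det3_int hI p q a) (not_le.2 h3)
  have hpar' : ∀ p a q, D.det2 q a = 0 → D.det2 p q ≠ 0 → |D.det3 p q a| ≤ 2 := by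
    intro p a q h1 h2
    have h3 := hpar q a p h1 (det2_ne_symm h2)
    have e : D.det3 q p a = -D.det3 p q a := by
      unfold Dat.det3 Dat.det2
      ring
    rwa [e, abs_neg] at h3
  have hex : ∀ p q, D.det2 p q ≠ 0 → ∃ a ∈ oth p q, 3 < |D.det3 p q a| := by
    intro p q hd
    by_contra hcon
    push Not at hcon
    have h1 := prod_small hN (ne_of_det2 hd) hcon
    have h2 := hK p q hd
    linarith
  have hex' : ∀ p q, D.det2 p q ≠ 0 →
      ∃ a ∈ oth p q, 3 < |D.det3 p q a| ∧ D.det2 q a ≠ 0 ∧ D.det2 a p ≠ 0 := by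
    intro p q hd
    obtain ⟨a, ha, h1⟩ := hex p q hd
    refine ⟨a, ha, h1, fun h2 => ?_, fun h2 => ?_⟩
    · have := hpar' p a q h2 hd
      linarith
    · have := hpar p a q (par_symm h2) hd
      linarith
  have h3 : 3 * n2 c ≤ SS D c := by
    refine pos_big hD hc ?_ fun p q hd => ?_
    · intro p q a d1 d2 d3
      by_contra hlt
      have hne : D.det3 p q a ≠ 0 := hG p q a d1 (ne_of_det2 d3) (ne_of_det2 d2).symm
      have h1 : |D.det3 p q a| = 1 := by
        by_contra h1
        exact hlt (two_le_abs_of_int (det3_int hI p q a) hne h1)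
      obtain ⟨b, hb, hb1, hb2, hb3⟩ := hex' p q d1
      -- the line `b` is parallel to `a`
      have hab : D.det2 a b = 0 := by
        have hab' := pluecker D p q a b
        rcases det2_cases hD a b with h0 | h0 | h0
        · exact h0
        · exfalso
          rw [h0] at hab'
          rcases det2_cases hD q a with x1 | x1 | x1 <;> rcases det2_cases hD b p with x2 | x2 | x2 <;>
            rcases det2_cases hD q b with x3 | x3 | x3 <;> rcases det2_cases hD a p with x4 | x4 | x4 <;>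
            first
            | exact d2 x1
            | exact hb3 x2
            | exact hb2 x3
            | exact d3 x4
            | (rcases det2_cases hD p q with x5 | x5 | x5
               · exact d1 x5
               · rw [x1, x2, x3, x4, x5] at hab'
                 norm_num at hab'
               · rw [x1, x2, x3, x4, x5] at hab'
                 norm_num at hab')
        · exfalso
          rw [h0] at hab'
          rcases det2_cases hD q a with x1 | x1 | x1 <;> rcases det2_cases hD b p with x2 | x2 | x2 <;>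
            rcases det2_cases hD q b with x3 | x3 | x3 <;> rcases det2_cases hD a p with x4 | x4 | x4 <;>
            first
            | exact d2 x1
            | exact hb3 x2
            | exact hb2 x3
            | exact d3 x4
            | (rcases det2_cases hD p q with x5 | x5 | x5
               · exact d1 x5
               · rw [x1, x2, x3, x4, x5] at hab'
                 norm_num at hab'
               · rw [x1, x2, x3, x4, x5] at hab'
                 norm_num at hab')
      obtain ⟨ε, d, hε, hr1, hr2⟩ := par_line hD hab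
      have hεa : |ε| = 1 := by
        rcases hε with h | h <;> rw [h] <;> norm_num
      have hdd : |D.det2 p q| = 1 := by
        rcases det2_cases hD p q with h0 | h0 | h0
        · exact absurd h0 d1
        · rw [h0]; norm_num
        · rw [h0]; norm_num
      have hda : |D.det2 a p| = 1 := by
        rcases det2_cases hD a p with h0 | h0 | h0
        · exact absurd h0 d3
        · rw [h0]; norm_num
        · rw [h0]; norm_num
      have h4 : |d| ≤ 2 := by
        have h5 := le_two_of_not (det3_int hI a b p) (not_le.2 (hA a b p hab d3))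
        rwa [hr2, abs_neg, abs_mul, hda, mul_one] at h5
      have h5 : |D.det3 p q b| ≤ 3 := by
        rw [hr1]
        refine (abs_add_le _ _).trans ?_
        rw [abs_mul, abs_mul, hεa, hdd, h1]
        linarith
      linarith
    · obtain ⟨a, -, -, h1, h2⟩ := hex' p q hd
      exact ⟨a, h1, h2⟩
  have h4 := n2_nonneg c
  linarith

/-- independence, the third case -/
theorem indep_large (hI : D.Integral) (hD : D.Directions) (hG : D.Generic) (hN : 3 ≤ N)
    (hN' : N ≤ 19) (hK : ∀ p q, D.det2 p q ≠ 0 → 10 ^ 10 ≤ size D p q) :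
    D.IndependentRegulators σ := by
  have hNR : (N : ℝ) ≤ 19 := by exact_mod_cast hN'
  have hN0 : (0 : ℝ) ≤ N := Nat.cast_nonneg N
  refine indep_of hI hD hG (η := 1 / 10 ^ 5) (by positivity) (by linarith)
    (fun p q hd => ?_) (δ := Real.log 2 / 60) ?_ ?_
  · have h1 : (10 ^ 10 : ℝ) ≤ ((size D p q : ℚ) : ℝ) := by exact_mod_cast hK p q hd
    linarith
  · intro c hc
    have h2 := n2_nonneg c
    have h3 := QQ_nonneg hI hD hG hc
    have h4 := log2_pos
    by_cases hl : |D.lam| = 1
    · have h5 : n2 c ≤ 40 * SS D c := by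
        refine pos_few hI hD hG hN' (fun p q hd => ?_) hc
        have h6 := hK p q hd
        unfold size at h6
        rw [hl, one_mul] at h6
        exact h6
      have h6 := SS_le hI hD hG hc
      have h7 := log_lam_nonneg hI
      have h8 := mul_nonneg h7 h2
      have h9 := mul_le_mul_of_nonneg_left h5 h4.le
      linarith
    · have h5 := two_le_abs_of_int (int_of_isIntegral hI.2.1) hI.2.2 hl
      have h6 : Real.log 2 ≤ Real.log |((D.lam : ℚ) : ℝ)| :=
        Real.log_le_log (by norm_num) (by exact_mod_cast h5)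
      have h7 := mul_le_mul_of_nonneg_right h6 h2
      have h8 := mul_nonneg h4.le h2
      linarith
  · have h1 : (N : ℝ) * (1 / 10 ^ 5) ≤ 19 / 10 ^ 5 := by linarith
    have h2 : 0 ≤ (N : ℝ) * (1 / 10 ^ 5) := by positivity
    have h3 : ((N : ℝ) * (1 / 10 ^ 5)) ^ 2 ≤ (19 / 10 ^ 5) ^ 2 := pow_le_pow_left₀ h2 h1 2
    have := Real.log_two_gt_d9
    norm_num at h1 h3 ⊢
    linarith

/-- the size is large if there are many lines or if `λ` is large -/
theorem size_many (hI : D.Integral) (hD : D.Directions) (hG : D.Generic) (hN : 20 ≤ N)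
    {p q : Fin N} (hd : D.det2 p q ≠ 0) : 100 * (N : ℚ) ^ 2 ≤ size D p q := by
  have h1 := prod_det3 hI hG hD hd
  have h2 : (100 * (N : ℚ) ^ 2) ≤ ((∏ j ∈ Finset.range (N - 2), (j / 6 + 1) : ℕ) : ℚ) := by
    exact_mod_cast prod_bound N hN
  have h3 := lam_ge hI
  have h4 : 0 ≤ ∏ a ∈ oth p q, |D.det3 p q a| := Finset.prod_nonneg fun _ _ => abs_nonneg _
  have h5 : ∏ a ∈ oth p q, |D.det3 p q a| ≤ size D p q := le_mul_of_one_le_left h4 h3
  linarith

theorem size_lam (hI : D.Integral) (hD : D.Directions) (hG : D.Generic) (hN : 3 ≤ N)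
    (hl : 6400 ≤ |D.lam|) {p q : Fin N} (hd : D.det2 p q ≠ 0) :
    100 * (N : ℚ) ^ 2 ≤ size D p q := by
  have h1 := prod_det3 hI hG hD hd
  have h2 : ((N : ℚ) ^ 2) ≤ 64 * ((∏ j ∈ Finset.range (N - 2), (j / 6 + 1) : ℕ) : ℚ) := by
    exact_mod_cast prod_bound' N (by omega)
  have h4 : 0 ≤ ∏ a ∈ oth p q, |D.det3 p q a| := Finset.prod_nonneg fun _ _ => abs_nonneg _
  have h5 : 6400 * ∏ a ∈ oth p q, |D.det3 p q a| ≤ size D p q := mul_le_mul_of_nonneg_right hl h4
  linarith

end Pool.Agent.W5h29.LU
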