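import Pool.Agent.W5h29.LU.Node
import Pool.Agent.W5h29.LA.Ind
set_option autoImplicit false

/-!
Estimates of the regulator integrals for the loop around a node.
-/

namespace Pool.Agent.W5h29.LU.Nd

open MeasureTheory Set Metric Filter Topology

open Pool.Agent.TH826.MK (circ norm_circ contDiff_circ circ_add_one hasDerivAt_circ)

open Pool.Agent.TH826.UH (pr NZ nz_circ pr_mul ld_circ)

open Pool.Agent.Y797.FP (wind_comp)

open Pool.Agent.W5h29.LA.Nd (pr_small circ_one_zero norm_deriv_circ pr_antisymm pr_self)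

variable {ι : Type*}

/-- the winding number times `2 π` -/
noncomputable def wi (F : ℝ → ℂ) : ℝ := ∫ t in (0 : ℝ)..1, (deriv F t / F t).im

theorem pr_cst (G : ℝ → ℂ) (c : ℂ) : pr G (fun _ => c) = -(Real.log ‖c‖ * wi G) :=
  LA.Dat.pr_cst G c

theorem pr_cst' (G : ℝ → ℂ) (c : ℂ) : pr (fun _ => c) G = Real.log ‖c‖ * wi G := by
  rw [pr_antisymm, pr_cst, neg_neg]

theorem pr_scale {F G : ℝ → ℂ} (hF : NZ F) (hG : NZ G) {x y : ℂ} (hx : x ≠ 0) (hy : y ≠ 0) :
    pr (fun t => x * F t) (fun t => y * G t) =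
      pr F G + Real.log ‖x‖ * wi G - Real.log ‖y‖ * wi F := by
  have hcx : NZ fun _ : ℝ => x := ⟨contDiff_const, fun _ => hx⟩
  have hcy : NZ fun _ : ℝ => y := ⟨contDiff_const, fun _ => hy⟩
  have h1 := pr_mul (hcx.mul hF) hcy hG
  have h2 : pr (fun _ : ℝ => y) (fun _ : ℝ => x) = 0 := by
    rw [pr_cst]
    unfold wi
    simp
  rw [h1, pr_antisymm _ (fun _ => y), pr_antisymm (fun t => x * F t) G, pr_mul hcy hcx hF,
    pr_mul hG hcx hF, h2, pr_cst', pr_cst, pr_antisymm G F]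
  ring

theorem wi_circ : wi (circ 1) = 2 * Real.pi := by
  unfold wi
  simp only [ld_circ one_pos]
  simp

theorem wi_mul_const {F : ℝ → ℂ} {x : ℂ} (hx : x ≠ 0) : wi (fun t => x * F t) = wi F := by
  unfold wi
  refine intervalIntegral.integral_congr fun t _ => ?_
  simp only
  rw [deriv_const_mul_field, mul_div_mul_left _ _ hx]

variable {A : Finset ι} {r s : ι → ℂ} {u : ℂ} {η : ℝ}

/-- the properties of the loop -/
structure Lp (A : Finset ι) (r s : ι → ℂ) (u : ℂ) (η : ℝ) (Y : ℝ → ℂ) : Prop where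
  good : Good A r s u η
  smooth : ContDiff ℝ 2 Y
  per : ∀ t, Y (t + 1) = Y t
  small : ∀ t, ‖Y t‖ ≤ 4 / 3
  ne : ∀ t, Y t ≠ 0
  lip : ∀ t, ‖deriv Y t‖ ≤ 17 / 5 * Real.pi
  eq : ∀ t, circ 1 t * Y t * ∏ a ∈ A, M r s a (circ 1 t) (Y t) = u

variable {Y : ℝ → ℂ}

theorem Lp.le1 (h : Lp A r s u η Y) (t : ℝ) : ‖Y t‖ ≤ 3 / 2 := by
  have := h.small t
  linarith

theorem Lp.nzY (h : Lp A r s u η Y) : NZ Y := ⟨h.smooth, h.ne⟩

theorem Lp.nzM (h : Lp A r s u η Y) {a : ι} (ha : a ∈ A) :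
    NZ fun t => M r s a (circ 1 t) (Y t) := by
  refine ⟨?_, fun t => M_ne h.good ha (norm_circ zero_le_one t).le (h.le1 t)⟩
  unfold M
  exact (contDiff_const.add (contDiff_const.mul (contDiff_circ 1))).add
    (contDiff_const.mul h.smooth)

theorem Lp.Y1 (h : Lp A r s u η Y) : Y 1 = Y 0 := by
  have := h.per 0
  rwa [zero_add] at this

theorem Lp.M1 (h : Lp A r s u η Y) (a : ι) :
    M r s a (circ 1 1) (Y 1) = M r s a (circ 1 0) (Y 0) := by
  rw [circ_one_zero, h.Y1]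

theorem Lp.M_small (h : Lp A r s u η Y) {a : ι} (ha : a ∈ A) (t : ℝ) :
    ‖M r s a (circ 1 t) (Y t) - 1‖ ≤ 7 / 3 * η := by
  have h1 := M_sub h.good ha (norm_circ zero_le_one t).le (h.small t)
  linarith

theorem Lp.eps (h : Lp A r s u η Y) : 7 / 3 * η ≤ 1 / 2 := by
  have := h.good.e2
  linarith

/-- the first estimate -/
theorem Lp.est1 (h : Lp A r s u η Y) {a : ι} (ha : a ∈ A) :
    |pr (circ 1) (fun t => M r s a (circ 1 t) (Y t))| ≤ 7 * Real.pi * η := by
  have h1 := pr_small (nz_circ one_pos) (h.nzM ha) circ_one_zero (h.M1 a) h.eps (h.M_small ha)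
    (B := 2 * Real.pi) (fun t => by
      rw [norm_div, norm_deriv_circ, norm_circ zero_le_one, div_one])
  refine h1.trans (le_of_eq ?_)
  ring

theorem Lp.ld_M (h : Lp A r s u η Y) {a : ι} (ha : a ∈ A) (t : ℝ) :
    ‖deriv (fun t => M r s a (circ 1 t) (Y t)) t / M r s a (circ 1 t) (Y t)‖ ≤
      216 / 35 * Real.pi * η := by
  have h3 := M_ge h.good ha (norm_circ zero_le_one t).le (h.le1 t)
  have h0 := h.good.pos
  have hY : HasDerivAt Y (deriv Y t) t := (h.smooth.differentiable (by norm_num) t).hasDerivAt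
  have hd : HasDerivAt (fun t => M r s a (circ 1 t) (Y t))
      (r a * deriv (circ 1) t + s a * deriv Y t) t := by
    rw [(hasDerivAt_circ 1 t).deriv]
    exact (((hasDerivAt_circ 1 t).const_mul (r a)).const_add 1).add (hY.const_mul (s a))
  rw [hd.deriv, norm_div, div_le_iff₀ (by linarith)]
  have h5 : ‖r a * deriv (circ 1) t‖ ≤ η * (2 * Real.pi) := by
    rw [norm_mul, norm_deriv_circ]
    exact mul_le_mul_of_nonneg_right (h.good.r1 a ha) (by positivity)
  have h6 : ‖s a * deriv Y t‖ ≤ η * (17 / 5 * Real.pi) := by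
    rw [norm_mul]
    exact mul_le_mul (h.good.s1 a ha) (h.lip t) (norm_nonneg _) h.good.e0
  have h7 := norm_add_le (r a * deriv (circ 1) t) (s a * deriv Y t)
  have hp := Real.pi_pos
  have h8 : 216 / 35 * Real.pi * η * (7 / 8) ≤ 216 / 35 * Real.pi * η * ‖M r s a (circ 1 t) (Y t)‖ :=
    mul_le_mul_of_nonneg_left (h0.trans h3) (mul_nonneg (by positivity) h.good.e0)
  linarith

/-- the second estimate -/
theorem Lp.est2 (h : Lp A r s u η Y) {a b : ι} (ha : a ∈ A) (hb : b ∈ A) :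
    |pr (fun t => M r s a (circ 1 t) (Y t)) (fun t => M r s b (circ 1 t) (Y t))| ≤
      22 * Real.pi * η ^ 2 := by
  have b2 := pr_small (h.nzM ha) (h.nzM hb) (h.M1 a) (h.M1 b) h.eps (h.M_small hb) (h.ld_M ha)
  refine b2.trans ?_
  have hp := Real.pi_pos
  have h1 : 0 ≤ Real.pi * η ^ 2 := by positivity
  nlinarith

/-- the winding number vanishes -/
theorem Lp.wind (h : Lp A r s u η Y) {a : ι} (ha : a ∈ A) :
    wi (fun t => M r s a (circ 1 t) (Y t)) = 0 := by
  have hb : ∀ t, M r s a (circ 1 t) (Y t) ∈ ball (1 : ℂ) 1 := by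
    intro t
    rw [mem_ball, dist_eq_norm]
    have h1 := h.M_small ha t
    have h2 := h.eps
    linarith
  have h0 : ∀ z ∈ ball (1 : ℂ) 1, z ≠ 0 := by
    rintro z hz rfl
    rw [mem_ball, dist_eq_norm, zero_sub, norm_neg, norm_one] at hz
    exact lt_irrefl _ hz
  exact wind_comp (g := fun z => z) differentiableOn_id h0 (h.nzM ha).smooth hb (h.M1 a)

end Pool.Agent.W5h29.LU.Nd
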