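import Pool.Agent.W5h29.LA.Est
set_option autoImplicit false

/-!
The loop around a node, in the scale of the node.
-/

namespace Pool.Agent.W5h29.LU.Nd

open MeasureTheory Set Metric Filter Topology

open Pool.Agent.TH826.MK (circ norm_circ contDiff_circ circ_add_one hasDerivAt_circ)

open Pool.Agent.W5h29.LA.Nd (circ_ne circ_lip)

variable {ι : Type*}

theorem prod_le (A : Finset ι) {y : ι → ℂ} {b : ℝ} (hy : ∀ a ∈ A, ‖y a‖ ≤ b) :
    ‖∏ a ∈ A, y a‖ ≤ b ^ A.card := by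
  rw [norm_prod, ← Finset.prod_const]
  exact Finset.prod_le_prod (fun a _ => norm_nonneg _) hy

theorem prod_sub_le (A : Finset ι) {x y : ι → ℂ} {b δ : ℝ} (hb : 1 ≤ b) (hδ : 0 ≤ δ)
    (hx : ∀ a ∈ A, ‖x a‖ ≤ b) (hy : ∀ a ∈ A, ‖y a‖ ≤ b) (hd : ∀ a ∈ A, ‖x a - y a‖ ≤ δ) :
    ‖∏ a ∈ A, x a - ∏ a ∈ A, y a‖ ≤ A.card * b ^ A.card * δ := by
  classical
  induction A using Finset.induction_on with
  | empty => simp
  | insert a A ha ih =>
    have ih' := ih (fun b hb => hx b (Finset.mem_insert_of_mem hb))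
      (fun b hb => hy b (Finset.mem_insert_of_mem hb)) (fun b hb => hd b (Finset.mem_insert_of_mem hb))
    have h1 := prod_le A (y := y) fun b hb => hy b (Finset.mem_insert_of_mem hb)
    have h2 := hx a (Finset.mem_insert_self _ _)
    have h3 := hd a (Finset.mem_insert_self _ _)
    rw [Finset.prod_insert ha, Finset.prod_insert ha, Finset.card_insert_of_notMem ha]
    have e : x a * ∏ b ∈ A, x b - y a * ∏ b ∈ A, y b =
        x a * (∏ b ∈ A, x b - ∏ b ∈ A, y b) + (x a - y a) * ∏ b ∈ A, y b := by ring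
    rw [e]
    refine (norm_add_le _ _).trans ?_
    rw [norm_mul, norm_mul]
    have hb0 : (0 : ℝ) ≤ b := by linarith
    have h4 : ‖x a‖ * ‖∏ b ∈ A, x b - ∏ b ∈ A, y b‖ ≤ b * (A.card * b ^ A.card * δ) :=
      mul_le_mul h2 ih' (norm_nonneg _) hb0
    have h5 : ‖x a - y a‖ * ‖∏ b ∈ A, y b‖ ≤ δ * b ^ A.card :=
      mul_le_mul h3 h1 (norm_nonneg _) hδ
    have h6 : δ * b ^ A.card ≤ δ * b ^ (A.card + 1) :=
      mul_le_mul_of_nonneg_left (pow_le_pow_right₀ hb (Nat.le_succ _)) hδ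
    rw [pow_succ] at h6 ⊢
    push_cast
    linarith

/-- the hypotheses -/
structure Good (A : Finset ι) (r s : ι → ℂ) (u : ℂ) (η : ℝ) : Prop where
  r1 : ∀ a ∈ A, ‖r a‖ ≤ η
  s1 : ∀ a ∈ A, ‖s a‖ ≤ η
  u1 : ‖u‖ = 1
  e0 : 0 ≤ η
  e1 : ((A.card : ℝ) + 2) * η ≤ 1 / 10

/-- the linear functions -/
def M (r s : ι → ℂ) (a : ι) (X Y : ℂ) : ℂ := 1 + r a * X + s a * Y

/-- the map whose fixed points are the points of the curve -/
noncomputable def Phi (A : Finset ι) (r s : ι → ℂ) (u : ℂ) (X Y : ℂ) : ℂ :=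
  u * X⁻¹ * ∏ a ∈ A, (M r s a X Y)⁻¹

variable {A : Finset ι} {r s : ι → ℂ} {u : ℂ} {η : ℝ}

theorem Good.e2 (h : Good A r s u η) : η ≤ 1 / 20 := by
  have h1 := h.e1
  have h2 : 0 ≤ (A.card : ℝ) * η := mul_nonneg (Nat.cast_nonneg _) h.e0
  linarith

theorem Good.ce (h : Good A r s u η) : (A.card : ℝ) * η ≤ 1 / 10 := by
  have h1 := h.e1
  have h2 := h.e0
  linarith

theorem M_sub (h : Good A r s u η) {a : ι} (ha : a ∈ A) {X Y : ℂ} {c : ℝ} (hX : ‖X‖ ≤ 1)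
    (hY : ‖Y‖ ≤ c) : ‖M r s a X Y - 1‖ ≤ (1 + c) * η := by
  have h1 : ‖r a * X‖ ≤ η * 1 := by
    rw [norm_mul]
    exact mul_le_mul (h.r1 a ha) hX (norm_nonneg _) h.e0
  have h2 : ‖s a * Y‖ ≤ η * c := by
    rw [norm_mul]
    exact mul_le_mul (h.s1 a ha) hY (norm_nonneg _) h.e0
  have e : M r s a X Y - 1 = r a * X + s a * Y := by
    unfold M
    ring
  rw [e]
  refine (norm_add_le _ _).trans ?_
  linarith

theorem M_ge (h : Good A r s u η) {a : ι} (ha : a ∈ A) {X Y : ℂ} (hX : ‖X‖ ≤ 1)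
    (hY : ‖Y‖ ≤ 3 / 2) : 1 - 5 / 2 * η ≤ ‖M r s a X Y‖ := by
  have h1 := M_sub h ha hX hY
  have h2 : ‖(1 : ℂ)‖ ≤ ‖M r s a X Y‖ + ‖M r s a X Y - 1‖ := by
    have e : (1 : ℂ) = M r s a X Y - (M r s a X Y - 1) := by ring
    conv_lhs => rw [e]
    exact norm_sub_le _ _
  rw [norm_one] at h2
  linarith

theorem M_ne (h : Good A r s u η) {a : ι} (ha : a ∈ A) {X Y : ℂ} (hX : ‖X‖ ≤ 1)
    (hY : ‖Y‖ ≤ 3 / 2) : M r s a X Y ≠ 0 := by
  have h1 := M_ge h ha hX hY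
  intro h2
  rw [h2, norm_zero] at h1
  have := h.e2
  linarith

/-- the bound for the inverses -/
noncomputable def bb (η : ℝ) : ℝ := (1 - 5 / 2 * η)⁻¹

theorem Good.pos (h : Good A r s u η) : 7 / 8 ≤ 1 - 5 / 2 * η := by
  have := h.e2
  linarith

theorem Good.bb1 (h : Good A r s u η) : 1 ≤ bb η := by
  unfold bb
  have := h.pos
  exact one_le_inv_iff₀.2 ⟨by linarith, by linarith [h.e0]⟩

theorem Good.bpow (h : Good A r s u η) : bb η ^ (A.card + 2) ≤ 4 / 3 := by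
  have h1 : 1 + ((A.card + 2 : ℕ) : ℝ) * (-(5 / 2 * η)) ≤ (1 + -(5 / 2 * η)) ^ (A.card + 2) :=
    one_add_mul_le_pow (by linarith [h.e2]) _
  have h2 := h.e1
  push_cast at h1
  have h3 : (3 : ℝ) / 4 ≤ (1 - 5 / 2 * η) ^ (A.card + 2) := by
    have e : (1 : ℝ) - 5 / 2 * η = 1 + -(5 / 2 * η) := by ring
    rw [e]
    linarith
  unfold bb
  rw [inv_pow]
  calc _ ≤ ((3 : ℝ) / 4)⁻¹ := inv_anti₀ (by norm_num) h3
    _ = 4 / 3 := by norm_num

theorem Good.bpow' (h : Good A r s u η) : bb η ^ A.card ≤ 4 / 3 :=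
  (pow_le_pow_right₀ h.bb1 (by omega)).trans h.bpow

theorem inv_M_le (h : Good A r s u η) {a : ι} (ha : a ∈ A) {X Y : ℂ} (hX : ‖X‖ ≤ 1)
    (hY : ‖Y‖ ≤ 3 / 2) : ‖(M r s a X Y)⁻¹‖ ≤ bb η := by
  rw [norm_inv]
  unfold bb
  have := h.pos
  exact inv_anti₀ (by linarith) (M_ge h ha hX hY)

theorem Phi_le (h : Good A r s u η) {X Y : ℂ} (hX : ‖X‖ = 1) (hY : ‖Y‖ ≤ 3 / 2) :
    ‖Phi A r s u X Y‖ ≤ 4 / 3 := by
  unfold Phi
  rw [norm_mul, norm_mul, norm_inv, hX, inv_one, mul_one, h.u1, one_mul]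
  exact (prod_le A fun a ha => inv_M_le h ha hX.le hY).trans h.bpow'

theorem Phi_sub (h : Good A r s u η) {X Y X' Y' : ℂ} (hX : ‖X‖ = 1) (hY : ‖Y‖ ≤ 3 / 2)
    (hX' : ‖X'‖ = 1) (hY' : ‖Y'‖ ≤ 3 / 2) :
    ‖Phi A r s u X Y - Phi A r s u X' Y'‖ ≤ 22 / 15 * ‖X - X'‖ + 2 / 15 * ‖Y - Y'‖ := by
  have hb1 := h.bb1
  have h1 : ∀ a ∈ A, ‖(M r s a X Y)⁻¹ - (M r s a X' Y')⁻¹‖ ≤
      η * (‖X - X'‖ + ‖Y - Y'‖) * bb η ^ 2 := by
    intro a ha
    have n1 := M_ne h ha hX.le hY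
    have n2 := M_ne h ha hX'.le hY'
    have e : (M r s a X Y)⁻¹ - (M r s a X' Y')⁻¹ =
        (M r s a X' Y' - M r s a X Y) * ((M r s a X Y)⁻¹ * (M r s a X' Y')⁻¹) := by
      field_simp
    rw [e, norm_mul, norm_mul]
    have h2 := inv_M_le h ha hX.le hY
    have h3 := inv_M_le h ha hX'.le hY'
    have h4 : ‖M r s a X' Y' - M r s a X Y‖ ≤ η * (‖X - X'‖ + ‖Y - Y'‖) := by
      have e2 : M r s a X' Y' - M r s a X Y = -(r a * (X - X') + s a * (Y - Y')) := by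
        unfold M
        ring
      rw [e2, norm_neg]
      refine (norm_add_le _ _).trans ?_
      rw [norm_mul, norm_mul]
      have h5 := mul_le_mul_of_nonneg_right (h.r1 a ha) (norm_nonneg (X - X'))
      have h6 := mul_le_mul_of_nonneg_right (h.s1 a ha) (norm_nonneg (Y - Y'))
      linarith
    have h5 : ‖(M r s a X Y)⁻¹‖ * ‖(M r s a X' Y')⁻¹‖ ≤ bb η * bb η :=
      mul_le_mul h2 h3 (norm_nonneg _) (by linarith)
    calc _ ≤ (η * (‖X - X'‖ + ‖Y - Y'‖)) * (bb η * bb η) :=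
          mul_le_mul h4 h5 (by positivity) (mul_nonneg h.e0 (by positivity))
      _ = _ := by ring
  have h2 := prod_sub_le A hb1 (δ := η * (‖X - X'‖ + ‖Y - Y'‖) * bb η ^ 2)
    (mul_nonneg (mul_nonneg h.e0 (by positivity)) (by positivity))
    (fun a ha => inv_M_le h ha hX.le hY) (fun a ha => inv_M_le h ha hX'.le hY') h1
  have h4 : ‖∏ a ∈ A, (M r s a X Y)⁻¹ - ∏ a ∈ A, (M r s a X' Y')⁻¹‖ ≤
      2 / 15 * (‖X - X'‖ + ‖Y - Y'‖) := by
    refine h2.trans ?_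
    have e : (A.card : ℝ) * bb η ^ A.card * (η * (‖X - X'‖ + ‖Y - Y'‖) * bb η ^ 2) =
        ((A.card : ℝ) * η) * bb η ^ (A.card + 2) * (‖X - X'‖ + ‖Y - Y'‖) := by
      rw [pow_add]
      ring
    rw [e]
    refine mul_le_mul_of_nonneg_right ?_ (by positivity)
    calc _ ≤ (1 / 10 : ℝ) * (4 / 3) :=
          mul_le_mul h.ce h.bpow (by positivity) (by norm_num)
      _ = 2 / 15 := by norm_num
  have h5 := (prod_le A fun a ha => inv_M_le h ha hX.le hY).trans h.bpow'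
  have hX0 : X ≠ 0 := fun h0 => by rw [h0, norm_zero] at hX; exact zero_ne_one hX
  have hX0' : X' ≠ 0 := fun h0 => by rw [h0, norm_zero] at hX'; exact zero_ne_one hX'
  have h6 : ‖X⁻¹ - X'⁻¹‖ = ‖X - X'‖ := by
    have e : X⁻¹ - X'⁻¹ = (X' - X) * (X⁻¹ * X'⁻¹) := by
      field_simp
    rw [e, norm_mul, norm_mul, norm_inv, norm_inv, hX, hX', inv_one, mul_one, mul_one, norm_sub_rev]
  have e : Phi A r s u X Y - Phi A r s u X' Y' =
      u * (X⁻¹ - X'⁻¹) * ∏ a ∈ A, (M r s a X Y)⁻¹ +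
        u * X'⁻¹ * (∏ a ∈ A, (M r s a X Y)⁻¹ - ∏ a ∈ A, (M r s a X' Y')⁻¹) := by
    unfold Phi
    ring
  rw [e]
  refine (norm_add_le _ _).trans ?_
  rw [norm_mul, norm_mul, norm_mul, norm_mul, h6, norm_inv X', hX', inv_one, mul_one, h.u1,
    one_mul, one_mul]
  have h7 : ‖X - X'‖ * ‖∏ a ∈ A, (M r s a X Y)⁻¹‖ ≤ ‖X - X'‖ * (4 / 3) :=
    mul_le_mul_of_nonneg_left h5 (norm_nonneg _)
  linarith

theorem exists_fix (h : Good A r s u η) {X : ℂ} (hX : ‖X‖ = 1) :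
    ∃ Y : ℂ, ‖Y‖ ≤ 3 / 2 ∧ Phi A r s u X Y = Y := by
  have hmaps : MapsTo (Phi A r s u X) (closedBall 0 (3 / 2)) (closedBall 0 (3 / 2)) := by
    intro Y hY
    rw [mem_closedBall_zero_iff] at hY ⊢
    have := Phi_le h hX hY
    linarith
  have hcon : ContractingWith (2 / 15) (hmaps.restrict (Phi A r s u X) _ _) := by
    refine ⟨by
      rw [← NNReal.coe_lt_coe]
      norm_num, LipschitzWith.of_dist_le_mul fun Y Y' => ?_⟩
    rw [Subtype.dist_eq, Subtype.dist_eq, dist_eq_norm, dist_eq_norm]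
    have hY := mem_closedBall_zero_iff.1 Y.2
    have hY' := mem_closedBall_zero_iff.1 Y'.2
    have h1 := Phi_sub h hX hY hX hY'
    rw [sub_self, norm_zero, mul_zero, zero_add] at h1
    refine h1.trans (le_of_eq ?_)
    norm_num
  obtain ⟨Y, hY, hfix, -, -⟩ := ContractingWith.exists_fixedPoint' isClosed_closedBall.isComplete hmaps
    hcon (x := 0) (mem_closedBall_self (by norm_num)) (edist_ne_top _ _)
  exact ⟨Y, mem_closedBall_zero_iff.1 hY, hfix⟩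

theorem fix_lip (h : Good A r s u η) {X X' Y Y' : ℂ} (hX : ‖X‖ = 1) (hX' : ‖X'‖ = 1)
    (hY : ‖Y‖ ≤ 3 / 2) (hY' : ‖Y'‖ ≤ 3 / 2) (e : Phi A r s u X Y = Y) (e' : Phi A r s u X' Y' = Y') :
    ‖Y - Y'‖ ≤ 17 / 10 * ‖X - X'‖ := by
  have h1 := Phi_sub h hX hY hX' hY'
  rw [e, e'] at h1
  linarith [norm_nonneg (X - X')]

/-- the function whose zeros are the points -/
noncomputable def G (A : Finset ι) (r s : ι → ℂ) (u : ℂ) (v : ℝ × ℂ) : ℂ :=
  v.2 - Phi A r s u (circ 1 v.1) v.2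

theorem contDiffAt_G (h : Good A r s u η) (t₀ : ℝ) {y₀ : ℂ} (hy : ‖y₀‖ ≤ 3 / 2) :
    ContDiffAt ℝ 2 (G A r s u) (t₀, y₀) := by
  have hX : ContDiffAt ℝ 2 (fun v : ℝ × ℂ => circ 1 v.1) (t₀, y₀) :=
    (contDiff_circ 1).contDiffAt.comp (t₀, y₀) contDiffAt_fst
  have hM : ∀ a, ContDiffAt ℝ 2 (fun v : ℝ × ℂ => M r s a (circ 1 v.1) v.2) (t₀, y₀) := by
    intro a
    unfold M
    exact (contDiffAt_const.add (contDiffAt_const.mul hX)).add (contDiffAt_const.mul contDiffAt_snd)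
  have hn : ‖circ 1 t₀‖ = 1 := norm_circ zero_le_one t₀
  have hP : ContDiffAt ℝ 2 (fun v : ℝ × ℂ => ∏ a ∈ A, (M r s a (circ 1 v.1) v.2)⁻¹) (t₀, y₀) :=
    contDiffAt_prod fun a ha => (hM a).inv (M_ne h ha hn.le hy)
  exact contDiffAt_snd.sub ((contDiffAt_const.mul (hX.inv (circ_ne t₀))).mul hP)

theorem hasDerivAt_Phi (h : Good A r s u η) {X : ℂ} (hX : ‖X‖ = 1) {y₀ : ℂ} (hy : ‖y₀‖ < 3 / 2) :
    ∃ c : ℂ, ‖c‖ ≤ 2 / 15 ∧ HasDerivAt (Phi A r s u X) c y₀ := by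
  have hd : DifferentiableAt ℂ (Phi A r s u X) y₀ := by
    unfold Phi
    refine (differentiableAt_const _).mul ?_
    refine DifferentiableAt.fun_finsetProd fun a ha => ?_
    refine DifferentiableAt.inv ?_ (M_ne h ha hX.le hy.le)
    unfold M
    exact (differentiableAt_const _).add ((differentiableAt_const _).mul differentiableAt_id)
  refine ⟨_, ?_, hd.hasDerivAt⟩
  refine hd.hasDerivAt.le_of_lip' (by norm_num) ?_
  have hev : ∀ᶠ y in 𝓝 y₀, ‖y‖ < 3 / 2 := (continuous_norm.tendsto y₀).eventually_lt_const hy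
  filter_upwards [hev] with y hy1
  have h1 := Phi_sub h hX hy1.le hX hy.le
  rwa [sub_self, norm_zero, mul_zero, zero_add] at h1

theorem invertible_G (h : Good A r s u η) (t₀ : ℝ) {y₀ : ℂ} (hy : ‖y₀‖ < 3 / 2) :
    (fderiv ℝ (G A r s u) (t₀, y₀) ∘L .inr ℝ ℝ ℂ).IsInvertible := by
  obtain ⟨c, hc1, hc⟩ := hasDerivAt_Phi h (norm_circ zero_le_one t₀) hy
  have hne : 1 - c ≠ 0 := by
    intro h1
    rw [sub_eq_zero] at h1
    rw [← h1, norm_one] at hc1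
    norm_num at hc1
  have h0 : HasFDerivAt (G A r s u) (fderiv ℝ (G A r s u) (t₀, y₀)) (t₀, y₀) :=
    ((contDiffAt_G h t₀ hy.le).differentiableAt (by simp)).hasFDerivAt
  have h1 : HasFDerivAt (fun s : ℂ => (t₀, s)) (ContinuousLinearMap.inr ℝ ℝ ℂ) y₀ :=
    hasFDerivAt_prodMk_right t₀ y₀
  have h2 : HasFDerivAt (fun y : ℂ => G A r s u (t₀, y))
      (fderiv ℝ (G A r s u) (t₀, y₀) ∘L .inr ℝ ℝ ℂ) y₀ := HasFDerivAt.comp y₀ h0 h1
  have h3 : HasDerivAt (fun y : ℂ => G A r s u (t₀, y)) (1 - c) y₀ := (hasDerivAt_id y₀).sub hc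
  have h4 := h3.hasFDerivAt.restrictScalars ℝ
  have h5 := h2.unique h4
  rw [h5]
  refine ⟨(ContinuousLinearEquiv.unitsEquivAut ℂ (Units.mk0 (1 - c) hne)).restrictScalars ℝ, ?_⟩
  ext y
  simp

/-- the loop around the node -/
theorem exists_Y (h : Good A r s u η) : ∃ Y : ℝ → ℂ, ContDiff ℝ 2 Y ∧ (∀ t, Y (t + 1) = Y t) ∧
    (∀ t, ‖Y t‖ ≤ 4 / 3) ∧ (∀ t, Y t ≠ 0) ∧ (∀ t, ‖deriv Y t‖ ≤ 17 / 5 * Real.pi) ∧
    ∀ t, circ 1 t * Y t * ∏ a ∈ A, M r s a (circ 1 t) (Y t) = u := by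
  have hn : ∀ t, ‖circ 1 t‖ = 1 := fun t => norm_circ zero_le_one t
  choose Y hY hfix using fun t : ℝ => exists_fix h (hn t)
  have hlip : LipschitzWith (17 / 5 * NNReal.pi) Y := by
    refine LipschitzWith.of_dist_le_mul fun t t' => ?_
    have h1 := fix_lip h (hn t) (hn t') (hY t) (hY t') (hfix t) (hfix t')
    have h2 := circ_lip.dist_le_mul t t'
    rw [dist_eq_norm] at h2 ⊢
    push_cast at h2 ⊢
    rw [NNReal.coe_real_pi] at h2 ⊢
    linarith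
  have hsmall : ∀ t, ‖Y t‖ ≤ 4 / 3 := by
    intro t
    rw [← hfix t]
    exact Phi_le h (hn t) (hY t)
  have hlt : ∀ t, ‖Y t‖ < 3 / 2 := fun t => by
    have := hsmall t
    linarith
  have hsm : ContDiff ℝ 2 Y := by
    rw [contDiff_iff_contDiffAt]
    intro t₀
    have hcd := contDiffAt_G h t₀ (hY t₀)
    have hinv := invertible_G h t₀ (hlt t₀)
    have hiff := hcd.eventually_apply_eq_iff_implicitFunction (by simp) hinv
    have hc : Tendsto (fun t => (t, Y t)) (𝓝 t₀) (𝓝 (t₀, Y t₀)) :=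
      (continuous_id.prodMk hlip.continuous).tendsto t₀
    have hev := hc.eventually hiff
    have h0 : ∀ t, G A r s u (t, Y t) = 0 := by
      intro t
      unfold G
      rw [hfix t, sub_self]
    refine (hcd.contDiffAt_implicitFunction (by simp) hinv).congr_of_eventuallyEq ?_
    filter_upwards [hev] with t ht
    rw [h0, h0] at ht
    exact (ht.1 rfl).symm
  have heq : ∀ t, circ 1 t * Y t * ∏ a ∈ A, M r s a (circ 1 t) (Y t) = u := by
    intro t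
    have h1 := hfix t
    have h2 : ∏ a ∈ A, M r s a (circ 1 t) (Y t) ≠ 0 :=
      Finset.prod_ne_zero_iff.2 fun a ha => M_ne h ha (hn t).le (hY t)
    have h3 := circ_ne t
    unfold Phi at h1
    rw [Finset.prod_inv_distrib] at h1
    have h4 : circ 1 t * Y t * ∏ a ∈ A, M r s a (circ 1 t) (Y t) =
        circ 1 t * (u * (circ 1 t)⁻¹ * (∏ a ∈ A, M r s a (circ 1 t) (Y t))⁻¹) *
          ∏ a ∈ A, M r s a (circ 1 t) (Y t) := by
      rw [h1]
    rw [h4]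
    field_simp
  refine ⟨Y, hsm, ?_, hsmall, ?_, ?_, heq⟩
  · intro t
    have h1 := fix_lip h (hn (t + 1)) (hn t) (hY (t + 1)) (hY t) (hfix (t + 1)) (hfix t)
    rw [circ_add_one, sub_self, norm_zero, mul_zero] at h1
    exact sub_eq_zero.1 (norm_le_zero_iff.1 h1)
  · intro t h0
    have h1 := heq t
    rw [h0, mul_zero, zero_mul] at h1
    have h2 := h.u1
    rw [← h1, norm_zero] at h2
    exact zero_ne_one h2
  · intro t
    have h1 := norm_deriv_le_of_lipschitz hlip (x₀ := t)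
    push_cast at h1
    rwa [NNReal.coe_real_pi] at h1

end Pool.Agent.W5h29.LU.Nd
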