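import Pool.Agent.W5h29.LU.Comb
set_option autoImplicit false

/-!
The affine curve `λ ∏_p L_p = 1` is smooth.
-/

namespace Pool.Agent.W5h29.LU

open MvPolynomial

open Pool.Agent.W5h29.LA (Dat)

open Pool.Agent.W5h29.LA.Dat

variable {N : ℕ} {D : Dat ℚ N}

theorem split_sum' {p q : Fin N} (hpq : p ≠ q) (f : Fin N → ℝ) :
    ∑ a, f a = f p + (f q + ∑ a ∈ oth p q, f a) := LA.Alg.split_sum hpq f

theorem abs_det2 (hD : D.Directions) {p q : Fin N} (h : D.det2 p q ≠ 0) :
    |((D.det2 p q : ℚ) : ℝ)| = 1 := by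
  rcases det2_cases hD p q with h0 | h0 | h0
  · exact absurd h0 h
  · rw [h0]; norm_num
  · rw [h0]; norm_num

theorem abs_det2_le (hD : D.Directions) (p q : Fin N) : |((D.det2 p q : ℚ) : ℝ)| ≤ 1 := by
  rcases det2_cases hD p q with h0 | h0 | h0 <;> rw [h0] <;> norm_num

/-- the product of positive numbers with the sum `n + 2` -/
theorem prod_le_exp {ι : Type*} (A : Finset ι) (x : ι → ℝ) (hx : ∀ a ∈ A, 0 < x a)
    (hs : ∑ a ∈ A, x a = A.card + 2) : ∏ a ∈ A, x a ≤ Real.exp 2 := by
  calc ∏ a ∈ A, x a ≤ ∏ a ∈ A, Real.exp (x a - 1) := by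
        refine Finset.prod_le_prod (fun a ha => (hx a ha).le) fun a _ => ?_
        have := Real.add_one_le_exp (x a - 1)
        linarith
    _ = Real.exp (∑ a ∈ A, (x a - 1)) := (Real.exp_sum _ _).symm
    _ = Real.exp 2 := by
        rw [Finset.sum_sub_distrib, hs]
        simp

/-- there are no singular points -/
theorem no_sing (hI : D.Integral) (hD : D.Directions) (hG : D.Generic) {l : ℝ} (hl : 1 ≤ l)
    (hN : 9 ≤ N ∨ 2 ≤ l ∨ ∀ p q, D.det2 p q ≠ 0 →
      3 ^ N < l * ∏ a ∈ oth p q, |((D.det3 p q a : ℚ) : ℝ)|) (hN0 : 0 < N) (w : Fin N → ℝ) (h0 : ∀ a, w a ≠ 0)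
    (hpr : l * ∏ a, |w a| = 1)
    (hrel : ∀ p q a, ((D.det3 p q a : ℚ) : ℝ) = w p * (D.det2 q a : ℚ) + w q * (D.det2 a p : ℚ) +
      w a * (D.det2 p q : ℚ))
    (hdet : ∀ q, ∑ a, ((D.det2 q a : ℚ) : ℝ) / w a = 0)
    (hK : ∀ p q, D.det2 p q ≠ 0 → 100 * (N : ℝ) ^ 2 ≤ l * ∏ a ∈ oth p q, |((D.det3 p q a : ℚ) : ℝ)|) :
    False := by
  classical
  have hne : (Finset.univ : Finset (Fin N)).Nonempty := ⟨⟨0, hN0⟩, Finset.mem_univ _⟩
  obtain ⟨p, -, hp⟩ := Finset.exists_min_image Finset.univ (fun a => |w a|) hne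
  obtain ⟨q₀, hq₀⟩ := hD.2 p
  obtain ⟨q, hq', hq⟩ := Finset.exists_min_image
    (Finset.univ.filter fun a => D.det2 p a ≠ 0) (fun a => |w a|)
    ⟨q₀, Finset.mem_filter.2 ⟨Finset.mem_univ _, hq₀⟩⟩
  have hd : D.det2 p q ≠ 0 := (Finset.mem_filter.1 hq').2
  have hpq : p ≠ q := ne_of_det2 hd
  have hdR : ((D.det2 p q : ℚ) : ℝ) ≠ 0 := by exact_mod_cast hd
  have hd1 := abs_det2 hD hd
  -- the smallest value
  have hp1 : |w p| < 1 := by
    by_contra h
    push Not at h
    have h3 : ∀ a, 1 ≤ |w a| := fun a => h.trans (hp a (Finset.mem_univ a))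
    have h4 : ∀ a, |w a| ≤ ∏ b, |w b| := by
      intro a
      rw [← Finset.mul_prod_erase _ _ (Finset.mem_univ a)]
      apply le_mul_of_one_le_right (abs_nonneg _)
      have h5 : ∏ b ∈ Finset.univ.erase a, (1 : ℝ) ≤ ∏ b ∈ Finset.univ.erase a, |w b| :=
        Finset.prod_le_prod (fun _ _ => zero_le_one) fun b _ => h3 b
      rwa [Finset.prod_const_one] at h5
    have h5 : ∏ b, |w b| ≤ 1 := by
      rw [← hpr]
      exact le_mul_of_one_le_left (Finset.prod_nonneg fun _ _ => abs_nonneg _) hl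
    have h6 : ∀ a, |w a| = 1 := fun a => le_antisymm ((h4 a).trans h5) (h3 a)
    have h7 : l = 1 := by
      rw [Finset.prod_congr rfl fun a _ => h6 a, Finset.prod_const_one, mul_one] at hpr
      exact hpr
    rcases hN with hN | hN | hN
    · set v : Fin N → ℚ := fun a => if 0 < w a then 1 else -1 with hv
      have hv1 : ∀ a, v a = 1 ∨ v a = -1 := by
        intro a
        by_cases h8 : 0 < w a
        · exact Or.inl (if_pos h8)
        · exact Or.inr (if_neg h8)
      have hv2 : ∀ a, ((v a : ℚ) : ℝ) * w a = 1 := by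
        intro a
        have h9 := h6 a
        by_cases h8 : 0 < w a
        · have e : v a = 1 := if_pos h8
          rw [e]
          rw [abs_of_pos h8] at h9
          rw [h9]
          norm_num
        · have e : v a = -1 := if_neg h8
          rw [e]
          push Not at h8
          rw [abs_of_nonpos h8] at h9
          push_cast
          linarith
      have h8 := card_le_six hG hD hd (oth p q) v (fun a _ => hv1 a) ?_
      · rw [card_oth hpq] at h8
        omega
      · intro a _ b _ e1 e2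
        have e1' : ((v a : ℚ) : ℝ) * (D.det2 q a : ℚ) = (v b : ℚ) * (D.det2 q b : ℚ) := by
          exact_mod_cast e1
        have e2' : ((v a : ℚ) : ℝ) * (D.det2 a p : ℚ) = (v b : ℚ) * (D.det2 b p : ℚ) := by
          exact_mod_cast e2
        have e3 : ((v a : ℚ) : ℝ) * (D.det3 p q a : ℚ) = (v b : ℚ) * (D.det3 p q b : ℚ) := by
          rw [hrel p q a, hrel p q b]
          linear_combination (w p) * e1' + (w q) * e2' + ((D.det2 p q : ℚ) : ℝ) * (hv2 a) -
            ((D.det2 p q : ℚ) : ℝ) * (hv2 b)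
        exact_mod_cast e3
    · linarith
    · have h8 := hN p q hd
      rw [h7, one_mul] at h8
      have h9 : ∏ a ∈ oth p q, |((D.det3 p q a : ℚ) : ℝ)| ≤ ∏ a ∈ oth p q, (3 : ℝ) := by
        refine Finset.prod_le_prod (fun _ _ => abs_nonneg _) fun a _ => ?_
        rw [hrel p q a]
        have n1 : |w p * ((D.det2 q a : ℚ) : ℝ)| ≤ 1 := by
          rw [abs_mul, h6, one_mul]
          exact abs_det2_le hD q a
        have n2 : |w q * ((D.det2 a p : ℚ) : ℝ)| ≤ 1 := by
          rw [abs_mul, h6, one_mul]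
          exact abs_det2_le hD a p
        have n3 : |w a * ((D.det2 p q : ℚ) : ℝ)| ≤ 1 := by
          rw [abs_mul, h6, one_mul]
          exact abs_det2_le hD p q
        refine (abs_add_three _ _ _).trans ?_
        linarith
      rw [Finset.prod_const, card_oth hpq] at h9
      have h10 : (3 : ℝ) ^ (N - 2) ≤ 3 ^ N := pow_le_pow_right₀ (by norm_num) (by omega)
      linarith
  -- the numbers x_a
  set B : Fin N → ℝ := fun a => (w p * (D.det2 q a : ℚ) + w q * (D.det2 a p : ℚ)) / (D.det2 p q : ℚ)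
    with hB
  set x : Fin N → ℝ := fun a => 1 + B a / w a with hx
  have hxw : ∀ a, x a * w a = (D.det3 p q a : ℚ) / (D.det2 p q : ℚ) := by
    intro a
    have := h0 a
    rw [hrel p q a]
    simp only [hx, hB]
    field_simp
    ring
  have hA : ∀ a, |x a * w a| = |((D.det3 p q a : ℚ) : ℝ)| := by
    intro a
    rw [hxw, abs_div, hd1, div_one]
  have hA1 : ∀ a ∈ oth p q, 1 ≤ |x a * w a| := by
    intro a ha
    rw [hA]
    have h1 := one_le_abs_of_int (det3_int hI p q a)
      (hG p q a hd (mem_oth.1 ha).1 (mem_oth.1 ha).2)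
    exact_mod_cast h1
  have hBle : ∀ a, |B a| ≤ |w p| + |w q| * |((D.det2 a p : ℚ) : ℝ)| := by
    intro a
    simp only [hB]
    rw [abs_div, hd1, div_one]
    refine (abs_add_le _ _).trans ?_
    rw [abs_mul, abs_mul]
    have := mul_le_mul_of_nonneg_left (abs_det2_le hD q a) (abs_nonneg (w p))
    linarith
  have hxpos : ∀ a ∈ oth p q, 0 < x a := by
    intro a ha
    by_contra hneg
    push Not at hneg
    have hwa : 0 < |w a| := abs_pos.2 (h0 a)
    have h1 := hA1 a ha
    rw [abs_mul, abs_of_nonpos hneg] at h1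
    -- `|B a| = (1 - x a) |w a|`
    have h2 : |B a| = (1 - x a) * |w a| := by
      have e : B a = (x a - 1) * w a := by
        have := h0 a
        simp only [hx]
        field_simp
        ring
      rw [e, abs_mul, abs_of_nonpos (by linarith)]
      ring
    have h3 := hBle a
    rw [h2] at h3
    by_cases hap : D.det2 a p = 0
    · rw [hap] at h3
      have h4 := hp a (Finset.mem_univ a)
      simp only [Rat.cast_zero, abs_zero, mul_zero, add_zero] at h3
      linarith
    · rw [abs_det2 hD hap, mul_one] at h3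
      have h4 := hq a (Finset.mem_filter.2 ⟨Finset.mem_univ _, det2_ne_symm hap⟩)
      linarith
  -- the sums
  have s1 : ∑ a ∈ oth p q, ((D.det2 q a : ℚ) : ℝ) / w a = (D.det2 p q : ℚ) / w p := by
    have h1 := hdet q
    rw [split_sum' hpq, det2_self, D.det2_symm q p] at h1
    push_cast at h1
    rw [zero_div, zero_add, neg_div] at h1
    linarith
  have s2 : ∑ a ∈ oth p q, ((D.det2 a p : ℚ) : ℝ) / w a = (D.det2 p q : ℚ) / w q := by
    have h1 := hdet p
    rw [split_sum' hpq, det2_self] at h1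
    have h2 : ∑ a ∈ oth p q, ((D.det2 a p : ℚ) : ℝ) / w a =
        -∑ a ∈ oth p q, ((D.det2 p a : ℚ) : ℝ) / w a := by
      rw [← Finset.sum_neg_distrib]
      refine Finset.sum_congr rfl fun a _ => ?_
      rw [D.det2_symm a p]
      push_cast
      ring
    rw [h2]
    push_cast at h1
    rw [zero_div, zero_add] at h1
    linarith
  have hcard : ((oth p q).card : ℝ) + 2 = N := by
    rw [card_oth hpq]
    have h2 : 2 ≤ N := by
      have h3 := p.isLt
      have h4 := q.isLt
      by_contra h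
      apply hpq
      apply Fin.ext
      omega
    push_cast [h2]
    ring
  have hsum : ∑ a ∈ oth p q, x a = (oth p q).card + 2 := by
    have e : ∀ a, x a = 1 + (w p / (D.det2 p q : ℚ) * (((D.det2 q a : ℚ) : ℝ) / w a) +
        w q / (D.det2 p q : ℚ) * (((D.det2 a p : ℚ) : ℝ) / w a)) := by
      intro a
      have := h0 a
      simp only [hx, hB]
      field_simp
    simp only [e]
    rw [Finset.sum_add_distrib, Finset.sum_add_distrib, ← Finset.mul_sum, ← Finset.mul_sum, s1, s2]
    have e1 := h0 p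
    have e2 := h0 q
    simp only [Finset.sum_const, nsmul_eq_mul, mul_one]
    field_simp
    ring
  have hinv : ∀ a ∈ oth p q, 1 / |w a| ≤ x a := by
    intro a ha
    have h1 := hA1 a ha
    rw [abs_mul, abs_of_pos (hxpos a ha)] at h1
    rw [div_le_iff₀ (abs_pos.2 (h0 a))]
    exact h1
  have bound : ∀ (f : Fin N → Fin N → ℚ) (r s : Fin N), (∀ a, |((f r a : ℚ) : ℝ)| ≤ 1) →
      ∑ a ∈ oth p q, ((f r a : ℚ) : ℝ) / w a = (D.det2 p q : ℚ) / w s → 1 / |w s| ≤ N := by
    intro f r s hf hs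
    have h1 : 1 / |w s| = |∑ a ∈ oth p q, ((f r a : ℚ) : ℝ) / w a| := by
      rw [hs, abs_div, hd1]
    rw [h1]
    refine (Finset.abs_sum_le_sum_abs _ _).trans ?_
    rw [← hcard, ← hsum]
    refine Finset.sum_le_sum fun a ha => ?_
    refine le_trans ?_ (hinv a ha)
    rw [abs_div]
    exact div_le_div_of_nonneg_right (hf a) (abs_nonneg _)
  have b1 : 1 / |w p| ≤ N := bound (fun r a => D.det2 r a) q p (fun a => abs_det2_le hD q a) s1
  have b2 : 1 / |w q| ≤ N := bound (fun r a => D.det2 a r) p q (fun a => abs_det2_le hD a p) s2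
  -- the product
  have hpe := prod_le_exp (oth p q) x hxpos hsum
  have hwp : 0 < |w p| := abs_pos.2 (h0 p)
  have hwq : 0 < |w q| := abs_pos.2 (h0 q)
  have hprod : ∏ a ∈ oth p q, |((D.det3 p q a : ℚ) : ℝ)| =
      (∏ a ∈ oth p q, x a) * ∏ a ∈ oth p q, |w a| := by
    rw [← Finset.prod_mul_distrib]
    refine Finset.prod_congr rfl fun a ha => ?_
    rw [← hA a, abs_mul, abs_of_pos (hxpos a ha)]
  have hall : l * (|w p| * (|w q| * ∏ a ∈ oth p q, |w a|)) = 1 := by
    rw [← hpr]
    unfold oth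
    rw [Finset.mul_prod_erase (Finset.univ.erase p) (fun a => |w a|)
        (Finset.mem_erase.2 ⟨hpq.symm, Finset.mem_univ q⟩),
      Finset.mul_prod_erase Finset.univ (fun a => |w a|) (Finset.mem_univ p)]
  have hK1 := hK p q hd
  have hlw : l * ∏ a ∈ oth p q, |w a| = 1 / |w p| * (1 / |w q|) := by
    field_simp
    linarith
  have h5 : l * ∏ a ∈ oth p q, |((D.det3 p q a : ℚ) : ℝ)| ≤ Real.exp 2 * ((N : ℝ) * N) := by
    rw [hprod]
    calc l * ((∏ a ∈ oth p q, x a) * ∏ a ∈ oth p q, |w a|) =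
        (∏ a ∈ oth p q, x a) * (l * ∏ a ∈ oth p q, |w a|) := by ring
      _ ≤ Real.exp 2 * (l * ∏ a ∈ oth p q, |w a|) :=
          mul_le_mul_of_nonneg_right hpe (mul_nonneg (by linarith)
            (Finset.prod_nonneg fun _ _ => abs_nonneg _))
      _ ≤ Real.exp 2 * ((N : ℝ) * N) := by
          rw [hlw]
          exact mul_le_mul_of_nonneg_left (mul_le_mul b1 b2 (by positivity) (by positivity))
            (Real.exp_pos 2).le
  have h6 : Real.exp 2 < 8 := by
    have e : Real.exp 2 = Real.exp 1 * Real.exp 1 := by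
      rw [← Real.exp_add]
      norm_num
    have h7 := Real.exp_one_lt_d9
    have h8 := Real.exp_pos 1
    rw [e]
    nlinarith
  have hNR : (0 : ℝ) < N := by exact_mod_cast hN0
  have h9 : 0 < (N : ℝ) * N := by positivity
  nlinarith

/-- the affine curve is smooth -/
theorem smooth {σ : ℚ →+* ℂ} (hI : D.Integral) (hD : D.Directions) (hG : D.Generic)
    (hN : 9 ≤ N ∨ 2 ≤ |D.lam| ∨ ∀ p q, D.det2 p q ≠ 0 →
      3 ^ N < |D.lam| * ∏ a ∈ oth p q, |D.det3 p q a|) (hN0 : 0 < N)
    (hK : ∀ p q, D.det2 p q ≠ 0 → 100 * (N : ℚ) ^ 2 ≤ |D.lam| * ∏ a ∈ oth p q, |D.det3 p q a|) :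
    D.Smooth σ := by
  classical
  intro z hz
  by_contra hcon
  push Not at hcon
  have hσ : ∀ x : ℚ, σ x = (((x : ℚ) : ℝ) : ℂ) := by
    intro x
    rw [eq_ratCast σ x]
    push_cast
    rfl
  have h1 : σ D.lam * ∏ p, D.val σ z p = 1 := by
    unfold Dat.eqn at hz
    rw [map_sub, map_mul, map_prod, eval₂Hom_C, map_one, sub_eq_zero] at hz
    simp only [eval_line'] at hz
    exact hz
  have hP0 : ∏ p, D.val σ z p ≠ 0 := by
    intro h
    rw [h, mul_zero] at h1
    exact zero_ne_one h1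
  have h0 : ∀ p, D.val σ z p ≠ 0 := fun p => Finset.prod_ne_zero_iff.1 hP0 p (Finset.mem_univ p)
  have hl0 : σ D.lam ≠ 0 := by
    intro h
    rw [h, zero_mul] at h1
    exact zero_ne_one h1
  -- the two equations
  have key : ∀ (i : Fin 2) (v : Fin N → ℂ), (∀ p, eval₂Hom σ z (pderiv i (D.line p)) = v p) →
      ∑ p, v p / D.val σ z p = 0 := by
    intro i v hv
    have h2 := hcon i
    unfold Dat.eqn at h2
    rw [map_sub, pderiv_C_mul, pderiv_one, sub_zero, map_mul, eval₂Hom_C,
      eval_pderiv σ z i v hv h0] at h2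
    rcases mul_eq_zero.1 h2 with h3 | h3
    · exact absurd h3 hl0
    · exact (mul_eq_zero.1 h3).resolve_left hP0
  have ha : ∑ p, σ (D.al p) / D.val σ z p = 0 := by
    apply key 0
    intro p
    unfold Dat.line
    simp
  have hb : ∑ p, σ (D.be p) / D.val σ z p = 0 := by
    apply key 1
    intro p
    unfold Dat.line
    simp
  -- the point is real
  have him : ∀ p, (D.val σ z p).im = ((D.al p : ℚ) : ℝ) * (z 0).im + ((D.be p : ℚ) : ℝ) * (z 1).im := by
    intro p
    unfold val
    rw [hσ, hσ, hσ]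
    simp
  have hsum : ∑ p, (((D.val σ z p).im : ℝ) : ℂ) / D.val σ z p = 0 := by
    have e : ∀ p, (((D.val σ z p).im : ℝ) : ℂ) / D.val σ z p =
        (((z 0).im : ℝ) : ℂ) * (σ (D.al p) / D.val σ z p) +
          (((z 1).im : ℝ) : ℂ) * (σ (D.be p) / D.val σ z p) := by
      intro p
      rw [him p, hσ, hσ]
      push_cast
      ring
    simp only [e]
    rw [Finset.sum_add_distrib, ← Finset.mul_sum, ← Finset.mul_sum, ha, hb, mul_zero, mul_zero,
      add_zero]
  have hreal : ∀ p, (D.val σ z p).im = 0 := by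
    have h2 := congrArg Complex.im hsum
    rw [Complex.im_sum] at h2
    have e : ∀ p, ((((D.val σ z p).im : ℝ) : ℂ) / D.val σ z p).im =
        -((D.val σ z p).im ^ 2 / Complex.normSq (D.val σ z p)) := by
      intro p
      rw [Complex.div_im, Complex.ofReal_im, Complex.ofReal_re]
      ring
    simp only [e, Finset.sum_neg_distrib, Complex.zero_im, neg_eq_zero] at h2
    intro p
    have h3 := (Finset.sum_eq_zero_iff_of_nonneg fun p _ =>
      div_nonneg (sq_nonneg (D.val σ z p).im) (Complex.normSq_nonneg (D.val σ z p))).1 h2 p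
        (Finset.mem_univ p)
    rcases div_eq_zero_iff.1 h3 with h4 | h4
    · exact pow_eq_zero_iff two_ne_zero |>.1 h4
    · exact absurd (Complex.normSq_eq_zero.1 h4) (h0 p)
  set w : Fin N → ℝ := fun p => (D.val σ z p).re with hw
  have hval : ∀ p, D.val σ z p = (w p : ℂ) := by
    intro p
    apply Complex.ext
    · simp [hw]
    · rw [hreal p]
      simp
  have hlR : ((|D.lam| : ℚ) : ℝ) * ∏ a, |w a| = 1 := by
    have h2 := congrArg (fun x => ‖x‖) h1
    simp only [norm_mul, norm_prod, norm_one, hval, hσ, Complex.norm_real, Real.norm_eq_abs] at h2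
    push_cast
    exact h2
  have hl1 : 1 ≤ |D.lam| := one_le_abs_of_int (int_of_isIntegral hI.2.1) hI.2.2
  refine no_sing hI hD hG (l := ((|D.lam| : ℚ) : ℝ)) (by exact_mod_cast hl1) ?_ hN0 w ?_ hlR ?_ ?_ ?_
  · rcases hN with h | h | h
    · exact Or.inl h
    · exact Or.inr (Or.inl (by exact_mod_cast h))
    · exact Or.inr (Or.inr fun p q hd => by exact_mod_cast h p q hd)
  · intro a h2
    apply h0 a
    rw [hval a, h2, Complex.ofReal_zero]
  · intro p q a
    have h2 := val_rel (D := D) σ z p q a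
    rw [hval, hval, hval, hσ, hσ, hσ, hσ] at h2
    exact_mod_cast h2
  · intro q
    have h2 : ∑ a, σ (D.det2 q a) / D.val σ z a = 0 := by
      have e : ∀ a, σ (D.det2 q a) / D.val σ z a = σ (D.al q) * (σ (D.be a) / D.val σ z a) -
          σ (D.be q) * (σ (D.al a) / D.val σ z a) := by
        intro a
        unfold Dat.det2
        rw [map_sub, map_mul, map_mul]
        ring
      simp only [e]
      rw [Finset.sum_sub_distrib, ← Finset.mul_sum, ← Finset.mul_sum, ha, hb, mul_zero, mul_zero,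
        sub_zero]
    simp only [hval, hσ] at h2
    exact_mod_cast h2
  · intro p q hd
    exact_mod_cast hK p q hd

end Pool.Agent.W5h29.LU
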